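import Pool.Agent.U499.TW.Tower

/-!
# A labelled oriented tree with five vertices which is reached in two stages, but not in one
-/

set_option autoImplicit false

namespace Pool.Agent.U499.TW

open Pool.Agent.TH625.LOG Pool.Agent.N819.LT Pool.Agent.N819.UD Finset

/-- The labelled oriented tree `0 →₂ 1`, `0 →₁ 2`, `3 →₄ 0`, `4 →₃ 2` with five vertices. -/
def L5 : LOG (Fin 5) (Fin 4) where
  ini := ![0, 0, 3, 4]
  ter := ![1, 2, 0, 2]
  lab := ![2, 1, 4, 3]

theorem joined_symm {V E : Type} (p q : E → V) (x y : V) (h : Joined p q x y) :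
    Joined p q y x := by
  obtain ⟨e, h | h⟩ := h
  · exact ⟨e, Or.inr ⟨h.2, h.1⟩⟩
  · exact ⟨e, Or.inl ⟨h.2, h.1⟩⟩

theorem rtg_symm {V E : Type} (p q : E → V) (x y : V) (h : Relation.ReflTransGen (Joined p q) x y) :
    Relation.ReflTransGen (Joined p q) y x := by
  induction h with
  | refl => exact .refl
  | tail _ hab ih => exact Relation.ReflTransGen.head (joined_symm p q _ _ hab) ih

theorem conn_of_root {V E : Type} (p q : E → V) (r : V)
    (h : ∀ x, Relation.ReflTransGen (Joined p q) r x) : Conn p q := fun x y =>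
  (rtg_symm p q _ _ (h x)).trans (h y)

theorem step {V E : Type} {p q : E → V} {r x y : V}
    (h : Relation.ReflTransGen (Joined p q) r x) (e : E)
    (he : (p e = x ∧ q e = y) ∨ (q e = x ∧ p e = y)) :
    Relation.ReflTransGen (Joined p q) r y := h.tail ⟨e, he⟩

theorem L5_stage1 : Stage L5 ∅ {0, 1} := by
  refine stage_of_tree L5 ∅ {0, 1} (Fin 3) (fun v => (![some 0, some 1, some 2, none, none] :
    Fin 5 → Option (Fin 3)) v) (fun e => (![0, 0, 0, 0] : Fin 4 → Fin 3) e)
    (fun e => (![1, 2, 0, 0] : Fin 4 → Fin 3) e) (fun e => (![2, 1, 0, 0] : Fin 4 → Fin 3) e)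
    inferInstance (fun e he => absurd he (Set.notMem_empty e)) ?_ ?_ (Or.inl ?_)
  · rintro ⟨e, rfl | rfl⟩ <;> simp [L5]
  · rw [Nat.card_eq_fintype_card, Fintype.card_fin, Nat.card_coe_set_eq,
      Set.ncard_pair (by decide)]
  · refine conn_of_root _ _ 0 ?_
    have h0 : Relation.ReflTransGen (Joined (fun e : ({0, 1} : Set (Fin 4)) =>
        (![0, 0, 0, 0] : Fin 4 → Fin 3) e) (fun e => (![2, 1, 0, 0] : Fin 4 → Fin 3) e)) 0 0 := .refl
    intro x
    fin_cases x
    · exact h0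
    · exact step h0 ⟨1, Or.inr rfl⟩ (Or.inl ⟨rfl, rfl⟩)
    · exact step h0 ⟨0, Or.inl rfl⟩ (Or.inl ⟨rfl, rfl⟩)

theorem L5_stage2 : Stage L5 {0, 1} {2, 3} := by
  refine stage_of_tree L5 {0, 1} {2, 3} (Fin 3) (fun v => (![some 0, some 0, some 0, some 1,
    some 2] : Fin 5 → Option (Fin 3)) v) (fun e => (![0, 0, 1, 2] : Fin 4 → Fin 3) e)
    (fun e => (![0, 0, 0, 0] : Fin 4 → Fin 3) e) (fun e => (![0, 0, 2, 1] : Fin 4 → Fin 3) e)
    inferInstance ?_ ?_ ?_ (Or.inr ?_)
  · rintro e (rfl | rfl) <;> simp [L5]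
  · rintro ⟨e, rfl | rfl⟩ <;> simp [L5]
  · rw [Nat.card_eq_fintype_card, Fintype.card_fin, Nat.card_coe_set_eq,
      Set.ncard_pair (by decide)]
  · refine conn_of_root _ _ 0 ?_
    have h0 : Relation.ReflTransGen (Joined (fun e : ({2, 3} : Set (Fin 4)) =>
        (![0, 0, 0, 0] : Fin 4 → Fin 3) e) (fun e => (![0, 0, 2, 1] : Fin 4 → Fin 3) e)) 0 0 := .refl
    intro x
    fin_cases x
    · exact h0
    · exact step h0 ⟨3, Or.inr rfl⟩ (Or.inl ⟨rfl, rfl⟩)
    · exact step h0 ⟨2, Or.inl rfl⟩ (Or.inl ⟨rfl, rfl⟩)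

theorem L5_tower : Tower L5 ∅ Set.univ := by
  have h := Tower.stage _ _ (Tower.stage _ _ (Tower.base (L := L5) (S₀ := ∅)) L5_stage1)
    (by rw [Set.empty_union]; exact L5_stage2)
  have h2 : (∅ ∪ {0, 1} ∪ {2, 3} : Set (Fin 4)) = Set.univ := by
    ext e
    fin_cases e <;> simp
  rwa [h2] at h

theorem L5_conn : L5.Conn := by
  have h : Conn L5.ini L5.ter := by
    refine conn_of_root _ _ 0 ?_
    have h0 : Relation.ReflTransGen (Joined L5.ini L5.ter) 0 0 := .refl
    have h1 := step (y := (1 : Fin 5)) h0 0 (Or.inl ⟨rfl, rfl⟩)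
    have h2 := step (y := (2 : Fin 5)) h0 1 (Or.inl ⟨rfl, rfl⟩)
    have h3 := step (y := (3 : Fin 5)) h0 2 (Or.inr ⟨rfl, rfl⟩)
    have h4 := step (y := (4 : Fin 5)) h2 3 (Or.inr ⟨rfl, rfl⟩)
    intro x
    fin_cases x
    · exact h0
    · exact h1
    · exact h2
    · exact h3
    · exact h4
  exact h

theorem mp_in {V E : Type} (p q : E → V) (S : Set E) (e : E) (he : e ∈ S) : mp p q S e = p e := by
  unfold mp; exact if_pos he

theorem mp_out {V E : Type} (p q : E → V) (S : Set E) (e : E) (he : e ∉ S) :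
    mp p q S e = q e := by
  unfold mp; exact if_neg he

theorem L5_ini : ¬ ∃! R : Set (Fin 4), Mix L5.ini L5.ter L5.lab R ∧ Spans L5.ini L5.lab R := by
  rintro ⟨R, -, huniq⟩
  have hA : Mix L5.ini L5.ter L5.lab ({0, 1, 2} : Set (Fin 4)) ∧
      Spans L5.ini L5.lab ({0, 1, 2} : Set (Fin 4)) := by
    constructor
    · refine conn_of_root _ _ 0 ?_
      have h0 : Relation.ReflTransGen (Joined (mp L5.ini L5.ter ({0, 1, 2} : Set (Fin 4)))
        L5.lab) 0 0 := .refl
      have h2 := step (y := (2 : Fin 5)) h0 0 (Or.inl ⟨mp_in _ _ _ _ (by simp), rfl⟩)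
      have h1 := step (y := (1 : Fin 5)) h0 1 (Or.inl ⟨mp_in _ _ _ _ (by simp), rfl⟩)
      have h3 := step (y := (3 : Fin 5)) h2 3 (Or.inl ⟨mp_out _ _ _ _ (by simp), rfl⟩)
      have h4 := step (y := (4 : Fin 5)) h3 2 (Or.inl ⟨mp_in _ _ _ _ (by simp), rfl⟩)
      intro x
      fin_cases x
      · exact h0
      · exact h1
      · exact h2
      · exact h3
      · exact h4
    · intro P hP e
      have e0 := hP 0 (by simp)
      have e1 := hP 1 (by simp)
      have e2 := hP 2 (by simp)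
      fin_cases e
      · exact e0
      · exact e1
      · exact e2
      · exact e2.symm
  have hB : Mix L5.ini L5.ter L5.lab ({0, 1, 3} : Set (Fin 4)) ∧
      Spans L5.ini L5.lab ({0, 1, 3} : Set (Fin 4)) := by
    constructor
    · refine conn_of_root _ _ 0 ?_
      have h0 : Relation.ReflTransGen (Joined (mp L5.ini L5.ter ({0, 1, 3} : Set (Fin 4)))
        L5.lab) 0 0 := .refl
      have h2 := step (y := (2 : Fin 5)) h0 0 (Or.inl ⟨mp_in _ _ _ _ (by simp), rfl⟩)
      have h1 := step (y := (1 : Fin 5)) h0 1 (Or.inl ⟨mp_in _ _ _ _ (by simp), rfl⟩)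
      have h4 := step (y := (4 : Fin 5)) h0 2 (Or.inl ⟨mp_out _ _ _ _ (by simp), rfl⟩)
      have h3 := step (y := (3 : Fin 5)) h4 3 (Or.inl ⟨mp_in _ _ _ _ (by simp), rfl⟩)
      intro x
      fin_cases x
      · exact h0
      · exact h1
      · exact h2
      · exact h3
      · exact h4
    · intro P hP e
      have e0 := hP 0 (by simp)
      have e1 := hP 1 (by simp)
      have e3 := hP 3 (by simp)
      fin_cases e
      · exact e0
      · exact e1
      · exact e3.symm
      · exact e3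
  have h := (huniq _ hA).trans (huniq _ hB).symm
  have h2 : (2 : Fin 4) ∈ ({0, 1, 3} : Set (Fin 4)) := by
    rw [← h]; simp
  simp at h2

theorem L5_ter : ¬ ∃! R : Set (Fin 4), Mix L5.ter L5.ini L5.lab R ∧ Spans L5.ter L5.lab R := by
  rintro ⟨R, -, huniq⟩
  have hA : Mix L5.ter L5.ini L5.lab ({0, 2, 3} : Set (Fin 4)) ∧
      Spans L5.ter L5.lab ({0, 2, 3} : Set (Fin 4)) := by
    constructor
    · refine conn_of_root _ _ 0 ?_
      have h0 : Relation.ReflTransGen (Joined (mp L5.ter L5.ini ({0, 2, 3} : Set (Fin 4)))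
        L5.lab) 0 0 := .refl
      have h1 := step (y := (1 : Fin 5)) h0 1 (Or.inl ⟨mp_out _ _ _ _ (by simp), rfl⟩)
      have h4 := step (y := (4 : Fin 5)) h0 2 (Or.inl ⟨mp_in _ _ _ _ (by simp), rfl⟩)
      have h2 := step (y := (2 : Fin 5)) h1 0 (Or.inl ⟨mp_in _ _ _ _ (by simp), rfl⟩)
      have h3 := step (y := (3 : Fin 5)) h2 3 (Or.inl ⟨mp_in _ _ _ _ (by simp), rfl⟩)
      intro x
      fin_cases x
      · exact h0
      · exact h1
      · exact h2
      · exact h3
      · exact h4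
    · intro P hP e
      have e0 := hP 0 (by simp)
      have e2 := hP 2 (by simp)
      have e3 := hP 3 (by simp)
      fin_cases e
      · exact e0
      · exact e0.symm
      · exact e2
      · exact e3
  have hB : Mix L5.ter L5.ini L5.lab ({1, 2, 3} : Set (Fin 4)) ∧
      Spans L5.ter L5.lab ({1, 2, 3} : Set (Fin 4)) := by
    constructor
    · refine conn_of_root _ _ 0 ?_
      have h0 : Relation.ReflTransGen (Joined (mp L5.ter L5.ini ({1, 2, 3} : Set (Fin 4)))
        L5.lab) 0 0 := .refl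
      have h2 := step (y := (2 : Fin 5)) h0 0 (Or.inl ⟨mp_out _ _ _ _ (by simp), rfl⟩)
      have h4 := step (y := (4 : Fin 5)) h0 2 (Or.inl ⟨mp_in _ _ _ _ (by simp), rfl⟩)
      have h1 := step (y := (1 : Fin 5)) h2 1 (Or.inl ⟨mp_in _ _ _ _ (by simp), rfl⟩)
      have h3 := step (y := (3 : Fin 5)) h2 3 (Or.inl ⟨mp_in _ _ _ _ (by simp), rfl⟩)
      intro x
      fin_cases x
      · exact h0
      · exact h1
      · exact h2
      · exact h3
      · exact h4
    · intro P hP e
      have e1 := hP 1 (by simp)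
      have e2 := hP 2 (by simp)
      have e3 := hP 3 (by simp)
      fin_cases e
      · exact e1.symm
      · exact e1
      · exact e2
      · exact e3
  have h := (huniq _ hA).trans (huniq _ hB).symm
  have h2 : (0 : Fin 4) ∈ ({1, 2, 3} : Set (Fin 4)) := by
    rw [← h]; simp
  simp at h2

end Pool.Agent.U499.TW
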