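import Pool.Agent.U499.TW.TowerLI

/-!
# Relative asphericity: the complex of the whole graph is aspherical if and only if the complex of
# the blocks is
-/

set_option autoImplicit false

namespace Pool.Agent.U499.TW

open Pool.Agent.TH625.LOG Pool.Agent.N819.LT Pool.Agent.N819.UD Finset

/-- The second homotopy group of the complex is zero: the boundary operator from the 2-chains to the
1-chains of the universal covering is injective. -/
def Asph {V E : Type} (L : LOG V E) : Prop :=
  ∀ c : (E × L.G) →₀ ℤ, L.bdry c = 0 → c = 0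

/-- transport of a chain between two groups, restricted to a block -/
theorem transport {V E Γ Γ' : Type} [Fintype V] [Fintype E] [DecidableEq V] [Group Γ] [Group Γ']
    (x : V → Γ) (x' : V → Γ') (p q lab : E → V) (W : Set V) (A : Set E)
    (hA : ∀ e ∈ A, p e ∈ W ∧ q e ∈ W ∧ lab e ∈ W) (K : Subgroup Γ) (hK : ∀ v ∈ W, x v ∈ K)
    (τ : Γ → Γ') (hτ : ∀ k ∈ K, ∀ v ∈ W, τ (k * (x v)⁻¹) = τ k * (x' v)⁻¹)
    (y' : E → Γ' → ℤ) (hy' : KerZ x' p q lab y')
    (hout : ∀ e, e ∉ A → (∀ g, y' e g = 0) ∨ (p e ∉ W ∧ q e ∉ W ∧ lab e ∉ W)) (g₀ : Γ')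
    (y : E → Γ → ℤ) (hy1 : ∀ e ∈ A, ∀ g ∈ K, y e g = y' e (g₀ * τ g))
    (hy2 : ∀ e, e ∉ A → ∀ g, y e g = 0) (hy3 : ∀ e g, g ∉ K → y e g = 0) :
    KerZ x p q lab y := by
  classical
  intro v g
  by_cases hv : v ∈ W
  · by_cases hg : g ∈ K
    · refine Eq.trans (Finset.sum_congr rfl fun e _ => ?_) (hy' v (g₀ * τ g))
      by_cases he : e ∈ A
      · obtain ⟨h1, h2, h3⟩ := hA e he
        have k1 : g * (x (p e))⁻¹ ∈ K := K.mul_mem hg (K.inv_mem (hK _ h1))
        have k3 : g * (x (lab e))⁻¹ ∈ K := K.mul_mem hg (K.inv_mem (hK _ h3))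
        rw [hy1 e he g hg, hy1 e he _ k1, hy1 e he _ k3, hτ g hg _ h1, hτ g hg _ h3, mul_assoc,
          mul_assoc]
      · simp only [hy2 e he, ite_self, add_zero, sub_zero]
        rcases hout e he with h0 | ⟨h1, h2, h3⟩
        · simp only [h0, ite_self, add_zero, sub_zero]
        · have n1 : p e ≠ v := by rintro rfl; exact h1 hv
          have n2 : q e ≠ v := by rintro rfl; exact h2 hv
          have n3 : lab e ≠ v := by rintro rfl; exact h3 hv
          simp only [if_neg n1, if_neg n2, if_neg n3, add_zero, sub_zero]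
    · refine Finset.sum_eq_zero fun e _ => ?_
      by_cases he : e ∈ A
      · obtain ⟨h1, h2, h3⟩ := hA e he
        have k1 : g * (x (p e))⁻¹ ∉ K := fun h => hg (by
          have := K.mul_mem h (hK _ h1)
          rwa [inv_mul_cancel_right] at this)
        have k3 : g * (x (lab e))⁻¹ ∉ K := fun h => hg (by
          have := K.mul_mem h (hK _ h3)
          rwa [inv_mul_cancel_right] at this)
        rw [hy3 e g hg, hy3 e _ k1, hy3 e _ k3]
        simp
      · simp only [hy2 e he, ite_self, add_zero, sub_zero]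
  · refine Finset.sum_eq_zero fun e _ => ?_
    by_cases he : e ∈ A
    · obtain ⟨h1, h2, h3⟩ := hA e he
      have n1 : p e ≠ v := by rintro rfl; exact hv h1
      have n2 : q e ≠ v := by rintro rfl; exact hv h2
      have n3 : lab e ≠ v := by rintro rfl; exact hv h3
      simp only [if_neg n1, if_neg n2, if_neg n3, add_zero, sub_zero]
    · simp only [hy2 e he, ite_self, add_zero, sub_zero]

variable {V E : Type}

/-- asphericity in terms of functions on all the edges -/
def AsphF [Fintype V] [Fintype E] [DecidableEq V] (L : LOG V E) (R : Set E) : Prop :=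
  ∀ y : E → (sub L R).G → ℤ, {z : E × (sub L R).G | y z.1 z.2 ≠ 0}.Finite →
    KerZ (sub L R).gen L.ini L.ter L.lab y → (∀ e, e ∉ R → ∀ g, y e g = 0) → ∀ e g, y e g = 0

theorem asph_iff [Fintype V] [Fintype E] [DecidableEq V] (L : LOG V E) (R : Set E) :
    Asph (sub L R) ↔ AsphF L R := by
  classical
  constructor
  · intro h y hfin hy hout e g
    by_cases he : e ∈ R
    · have hfin' : (Function.support fun z : R × (sub L R).G => y z.1 z.2).Finite := by
        refine (hfin.preimage (f := fun z : R × (sub L R).G => ((z.1 : E), z.2)) ?_).subset ?_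
        · rintro ⟨e1, g1⟩ _ ⟨e2, g2⟩ _ h
          simp only [Prod.mk.injEq] at h
          exact Prod.ext (Subtype.ext h.1) h.2
        · intro z hz
          exact hz
      have h1 := h (Finsupp.ofSupportFinite (fun z : R × (sub L R).G => y z.1 z.2) hfin') ?_
      · have h2 := DFunLike.congr_fun h1 (⟨e, he⟩, g)
        exact h2
      · ext ⟨v, g⟩
        rw [bd_int, Finsupp.coe_zero, Pi.zero_apply]
        refine Eq.trans ?_ (hy v g)
        refine Fintype.sum_of_injective (fun e : R => (e : E)) Subtype.val_injective _ _ ?_ ?_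
        · intro e he
          have he' : e ∉ R := fun h => he ⟨⟨e, h⟩, rfl⟩
          simp only [hout e he', ite_self, add_zero, sub_zero]
        · intro e
          rfl
    · exact hout e he g
  · intro h c hc
    ext d
    have hmain := h (extZ R fun e g => c (e, g)) ?_ ?_ ?_ d.1 d.2
    · rw [extZ_mem] at hmain
      exact hmain
    · refine ((c.support.finite_toSet).image fun z : R × (sub L R).G =>
        ((z.1 : E), z.2)).subset ?_
      rintro ⟨e, g⟩ hz
      by_cases he : e ∈ R
      · refine ⟨(⟨e, he⟩, g), ?_, rfl⟩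
        rw [Finset.mem_coe, Finsupp.mem_support_iff]
        have := extZ_mem R (fun e g => c (e, g)) ⟨e, he⟩ g
        intro h0
        exact hz (this.trans h0)
      · exact absurd (extZ_not R _ e he g) hz
    · intro v g
      have h1 := bd_int (sub L R) c v g
      rw [hc, Finsupp.coe_zero, Pi.zero_apply] at h1
      refine Eq.trans (Eq.symm ?_) h1.symm
      refine Fintype.sum_of_injective (fun e : R => (e : E)) Subtype.val_injective _ _ ?_ ?_
      · intro e he
        have he' : e ∉ R := fun h => he ⟨⟨e, h⟩, rfl⟩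
        simp only [extZ_not R _ e he', ite_self, add_zero, sub_zero]
      · intro e
        simp only [extZ_mem]
        rfl
    · intro e he
      exact extZ_not R _ e he

/-- the relation generated by the edges of `S₀` (ends and labels) -/
def Blk (L : LOG V E) (S₀ : Set E) : V → V → Prop :=
  Relation.EqvGen fun a b => ∃ e ∈ S₀, (a = L.ini e ∨ a = L.ter e) ∧ b = L.lab e

theorem blk_edge (L : LOG V E) (S₀ : Set E) (e : E) (he : e ∈ S₀) :
    Blk L S₀ (L.ini e) (L.lab e) ∧ Blk L S₀ (L.ter e) (L.lab e) :=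
  ⟨Relation.EqvGen.rel _ _ ⟨e, he, Or.inl rfl, rfl⟩, Relation.EqvGen.rel _ _ ⟨e, he, Or.inr rfl, rfl⟩⟩

theorem inBlock_blk (L : LOG V E) (S₀ : Set E) (v₀ : V) : InBlock L S₀ {v | Blk L S₀ v v₀} := by
  intro X k hk v hv v' hv'
  have key : ∀ a b, Blk L S₀ a b → k a = k b := by
    intro a b h
    induction h with
    | rel a b h =>
      obtain ⟨e, he, h1, h2⟩ := h
      rw [h2]
      rcases h1 with h1 | h1
      · rw [h1]; exact (hk e he).1
      · rw [h1]; exact (hk e he).2
    | refl a => rfl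
    | symm a b _ ih => exact ih.symm
    | trans a b c _ _ ih1 ih2 => exact ih1.trans ih2
  rw [key v v₀ hv, key v' v₀ hv']

/-- The edges of `R ∩ S₀` in the block of the vertex `v₀`. -/
def blockE (L : LOG V E) (S₀ R : Set E) (v₀ : V) : Set E :=
  {e | e ∈ R ∧ e ∈ S₀ ∧ Blk L S₀ (L.lab e) v₀}

theorem blockE_sub (L : LOG V E) (S₀ R : Set E) (v₀ : V) : blockE L S₀ R v₀ ⊆ R :=
  fun _ he => he.1

/-- The other blocks may be killed. -/
theorem retract (L : LOG V E) (S₀ R : Set E) (v₀ : V) (w : FreeGroup V)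
    (hw : w ∈ Subgroup.closure (FreeGroup.of '' {v | Blk L S₀ v v₀}))
    (h : (sub L (R ∩ S₀)).pr w = 1) : (sub L (blockE L S₀ R v₀)).pr w = 1 := by
  classical
  let f : V → (sub L (blockE L S₀ R v₀)).G := fun v =>
    if Blk L S₀ v v₀ then (sub L (blockE L S₀ R v₀)).gen v else 1
  have hf : ∀ r ∈ Set.range (sub L (R ∩ S₀)).rel, FreeGroup.lift f r = 1 := by
    rintro _ ⟨⟨e, heR, heS⟩, rfl⟩
    show FreeGroup.lift f (FreeGroup.of (L.ini e) * FreeGroup.of (L.lab e) *
      (FreeGroup.of (L.ter e))⁻¹ * (FreeGroup.of (L.lab e))⁻¹) = 1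
    simp only [map_mul, map_inv, FreeGroup.lift_apply_of]
    obtain ⟨b1, b2⟩ := blk_edge L S₀ e heS
    by_cases hl : Blk L S₀ (L.lab e) v₀
    · have h1 : f (L.ini e) = (sub L (blockE L S₀ R v₀)).gen (L.ini e) :=
        if_pos (b1.trans _ _ _ hl)
      have h2 : f (L.ter e) = (sub L (blockE L S₀ R v₀)).gen (L.ter e) :=
        if_pos (b2.trans _ _ _ hl)
      have h3 : f (L.lab e) = (sub L (blockE L S₀ R v₀)).gen (L.lab e) := if_pos hl
      have h4 := Pool.Agent.N819.UD.gen_rel (sub L (blockE L S₀ R v₀)) ⟨e, heR, heS, hl⟩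
      have h5 : (sub L (blockE L S₀ R v₀)).gen (L.ini e) *
        (sub L (blockE L S₀ R v₀)).gen (L.lab e) = (sub L (blockE L S₀ R v₀)).gen (L.lab e) *
          (sub L (blockE L S₀ R v₀)).gen (L.ter e) := h4
      rw [h1, h2, h3, h5]
      group
    · have h1 : f (L.ini e) = 1 := if_neg fun hh => hl ((b1.symm _ _).trans _ _ _ hh)
      have h2 : f (L.ter e) = 1 := if_neg fun hh => hl ((b2.symm _ _).trans _ _ _ hh)
      have h3 : f (L.lab e) = 1 := if_neg hl
      rw [h1, h2, h3]
      group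
  let ρ : (sub L (R ∩ S₀)).G →* (sub L (blockE L S₀ R v₀)).G := PresentedGroup.toGroup hf
  have hρ : ∀ w ∈ Subgroup.closure (FreeGroup.of '' {v | Blk L S₀ v v₀}),
      ρ ((sub L (R ∩ S₀)).pr w) = (sub L (blockE L S₀ R v₀)).pr w := by
    intro w hw
    induction hw using Subgroup.closure_induction with
    | mem w hw =>
      obtain ⟨v, hv, rfl⟩ := hw
      have h1 : ρ ((sub L (R ∩ S₀)).pr (FreeGroup.of v)) = f v := PresentedGroup.toGroup.of hf
      rw [h1]
      exact if_pos hv
    | one => simp only [map_one]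
    | mul a b _ _ iha ihb => rw [map_mul, map_mul, map_mul, iha, ihb]
    | inv a _ iha => rw [map_inv, map_inv, map_inv, iha]
  rw [← hρ w hw, h, map_one]

/-- the group generated by a block -/
theorem block_inj [Finite E] (L : LOG V E) {S₀ S : Set E} (hT : Tower L S₀ S) (v₀ : V)
    (R : Set E) (hR : R ⊆ S) :
    ∀ a ∈ Subgroup.closure ((sub L (blockE L S₀ R v₀)).gen '' {v | Blk L S₀ v v₀}),
      ∀ b ∈ Subgroup.closure ((sub L (blockE L S₀ R v₀)).gen '' {v | Blk L S₀ v v₀}),
        addE L (blockE L S₀ R v₀) R (blockE_sub L S₀ R v₀) a =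
          addE L (blockE L S₀ R v₀) R (blockE_sub L S₀ R v₀) b → a = b := by
  have key : ∀ a ∈ Subgroup.closure ((sub L (blockE L S₀ R v₀)).gen '' {v | Blk L S₀ v v₀}),
      addE L (blockE L S₀ R v₀) R (blockE_sub L S₀ R v₀) a = 1 → a = 1 := by
    intro a ha h
    have h1 : (sub L (blockE L S₀ R v₀)).gen '' {v | Blk L S₀ v v₀} =
        (sub L (blockE L S₀ R v₀)).pr '' (FreeGroup.of '' {v | Blk L S₀ v v₀}) := by
      rw [Set.image_image]
      rfl
    rw [h1, ← MonoidHom.map_closure] at ha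
    obtain ⟨w, hw, rfl⟩ := ha
    rw [addE_pr] at h
    exact retract L S₀ R v₀ w hw (tower_emb L hT _ (inBlock_blk L S₀ v₀) R hR w hw h)
  intro a ha b hb h
  have h1 := key (a * b⁻¹) (Subgroup.mul_mem _ ha (Subgroup.inv_mem _ hb)) (by
    rw [map_mul, map_inv, h, mul_inv_cancel])
  exact mul_inv_eq_one.1 h1

/-- **Relative asphericity.** -/
theorem rel_asph [Fintype V] [Fintype E] [DecidableEq V] (L : LOG V E) {S₀ S : Set E}
    (hT : Tower L S₀ S) (R : Set E) (hR : R ⊆ S) :
    Asph (sub L R) ↔ ∀ v₀, Asph (sub L (blockE L S₀ R v₀)) := by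
  classical
  simp only [asph_iff]
  constructor
  · intro h v₀ y hfin hy hout e₀ h₀
    by_contra hne
    have he₀ : e₀ ∈ blockE L S₀ R v₀ := by
      by_contra hh
      exact hne (hout e₀ hh h₀)
    set W : Set V := {v | Blk L S₀ v v₀} with hW
    set A : Set E := {e | e ∈ S₀ ∧ L.lab e ∈ W} with hAdef
    have hA : ∀ e ∈ A, L.ini e ∈ W ∧ L.ter e ∈ W ∧ L.lab e ∈ W := fun e he =>
      ⟨(blk_edge L S₀ e he.1).1.trans _ _ _ he.2, (blk_edge L S₀ e he.1).2.trans _ _ _ he.2, he.2⟩
    set φ := addE L (blockE L S₀ R v₀) R (blockE_sub L S₀ R v₀) with hφ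
    set H := Subgroup.closure ((sub L (blockE L S₀ R v₀)).gen '' W) with hH
    have hinj := block_inj L hT v₀ R hR
    have hgen : ∀ v ∈ W, (sub L (blockE L S₀ R v₀)).gen v ∈ H := fun v hv =>
      Subgroup.subset_closure ⟨v, hv, rfl⟩
    set K := H.map φ with hKdef
    let s : (sub L R).G → (sub L (blockE L S₀ R v₀)).G := fun g =>
      if hg : ∃ k ∈ H, φ k = g then hg.choose else 1
    have hs : ∀ g ∈ K, s g ∈ H ∧ φ (s g) = g := by
      rintro g ⟨k, hk, rfl⟩
      have hex : ∃ k' ∈ H, φ k' = φ k := ⟨k, hk, rfl⟩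
      have : s (φ k) = hex.choose := dif_pos hex
      rw [this]
      exact hex.choose_spec
    have hs' : ∀ k ∈ H, s (φ k) = k := fun k hk => by
      obtain ⟨h1, h2⟩ := hs (φ k) ⟨k, hk, rfl⟩
      exact hinj _ h1 _ hk h2
    have hK : ∀ v ∈ W, (sub L R).gen v ∈ K := fun v hv =>
      ⟨_, hgen v hv, addE_gen L _ _ _ v⟩
    have hτ : ∀ k ∈ K, ∀ v ∈ W, s (k * ((sub L R).gen v)⁻¹) =
        s k * ((sub L (blockE L S₀ R v₀)).gen v)⁻¹ := by
      intro k hk v hv
      obtain ⟨h1, h2⟩ := hs k hk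
      have h3 : k * ((sub L R).gen v)⁻¹ = φ (s k * ((sub L (blockE L S₀ R v₀)).gen v)⁻¹) := by
        rw [map_mul, map_inv, h2, hφ, addE_gen]
      rw [h3]
      exact hs' _ (H.mul_mem h1 (H.inv_mem (hgen v hv)))
    have hres := h (fun e g => if e ∈ A ∧ g ∈ K then y e (h₀ * s g) else 0) ?_ ?_ ?_ e₀ 1
    · have h1 : e₀ ∈ A ∧ (1 : (sub L R).G) ∈ K := ⟨⟨he₀.2.1, he₀.2.2⟩, K.one_mem⟩
      have h2 : s 1 = 1 := by
        have := hs' 1 H.one_mem
        rwa [map_one] at this
      simp only [if_pos h1, h2, mul_one] at hres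
      exact hne hres
    · refine Set.Finite.subset (Set.Finite.of_finite_image (s := {z : E × (sub L R).G |
        z.2 ∈ K ∧ y z.1 (h₀ * s z.2) ≠ 0}) (f := fun z => (z.1, h₀ * s z.2)) ?_ ?_) ?_
      · refine hfin.subset ?_
        rintro _ ⟨z, hz, rfl⟩
        exact hz.2
      · rintro ⟨e1, g1⟩ h1 ⟨e2, g2⟩ h2 h3
        simp only [Prod.mk.injEq] at h3
        refine Prod.ext h3.1 ?_
        have h4 := mul_left_cancel h3.2
        show g1 = g2
        rw [← (hs g1 h1.1).2, ← (hs g2 h2.1).2, h4]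
      · intro z hz
        have hz' : (if z.1 ∈ A ∧ z.2 ∈ K then y z.1 (h₀ * s z.2) else 0) ≠ 0 := hz
        by_cases hc : z.1 ∈ A ∧ z.2 ∈ K
        · rw [if_pos hc] at hz'
          exact ⟨hc.2, hz'⟩
        · rw [if_neg hc] at hz'
          exact absurd rfl hz'
    · refine transport (sub L R).gen (sub L (blockE L S₀ R v₀)).gen L.ini L.ter L.lab W A hA K hK
        s hτ y hy ?_ h₀ _ ?_ ?_ ?_
      · intro e he
        exact Or.inl (hout e fun hh => he ⟨hh.2.1, hh.2.2⟩)
      · intro e he g hg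
        simp only [if_pos (And.intro he hg)]
      · intro e he g
        simp only [if_neg (fun hh : e ∈ A ∧ g ∈ K => he hh.1)]
      · intro e g hg
        simp only [if_neg (fun hh : e ∈ A ∧ g ∈ K => hg hh.2)]
    · intro e he g
      have h1 : y e (h₀ * s g) = 0 := hout e (fun hh => he hh.1) _
      simp only [h1, ite_self]
  · intro h y hfin hy hout e₀ g₀
    by_contra hne
    have hsup := tower_chain L (sub L R).gen (chi (sub L R)) (chi_gen _) hT y hfin hy ?_ ?_
    · have heR : e₀ ∈ R := by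
        by_contra hh
        exact hne (hout e₀ hh g₀)
      have heS : e₀ ∈ S₀ := by
        by_contra hh
        exact hne (hsup e₀ hh g₀)
      set v₀ := L.lab e₀ with hv₀
      set W : Set V := {v | Blk L S₀ v v₀} with hW
      set A : Set E := {e | e ∈ S₀ ∧ L.lab e ∈ W} with hAdef
      have hA : ∀ e ∈ A, L.ini e ∈ W ∧ L.ter e ∈ W ∧ L.lab e ∈ W := fun e he =>
        ⟨(blk_edge L S₀ e he.1).1.trans _ _ _ he.2, (blk_edge L S₀ e he.1).2.trans _ _ _ he.2, he.2⟩
      set φ := addE L (blockE L S₀ R v₀) R (blockE_sub L S₀ R v₀) with hφ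
      set H := Subgroup.closure ((sub L (blockE L S₀ R v₀)).gen '' W) with hH
      have hinj := block_inj L hT v₀ R hR
      have hgen : ∀ v ∈ W, (sub L (blockE L S₀ R v₀)).gen v ∈ H := fun v hv =>
        Subgroup.subset_closure ⟨v, hv, rfl⟩
      have hτ : ∀ k ∈ H, ∀ v ∈ W, φ (k * ((sub L (blockE L S₀ R v₀)).gen v)⁻¹) =
          φ k * ((sub L R).gen v)⁻¹ := by
        intro k hk v hv
        rw [map_mul, map_inv, hφ, addE_gen]
      have hres := h v₀ (fun e g => if e ∈ A ∧ g ∈ H then y e (g₀ * φ g) else 0) ?_ ?_ ?_ e₀ 1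
      · have h1 : e₀ ∈ A ∧ (1 : (sub L (blockE L S₀ R v₀)).G) ∈ H :=
          ⟨⟨heS, Relation.EqvGen.refl _⟩, H.one_mem⟩
        simp only [if_pos h1, map_one, mul_one] at hres
        exact hne hres
      · refine Set.Finite.subset (Set.Finite.of_finite_image
          (s := {z : E × (sub L (blockE L S₀ R v₀)).G | z.2 ∈ H ∧ y z.1 (g₀ * φ z.2) ≠ 0})
          (f := fun z => (z.1, g₀ * φ z.2)) ?_ ?_) ?_
        · refine hfin.subset ?_
          rintro _ ⟨z, hz, rfl⟩
          exact hz.2
        · rintro ⟨e1, g1⟩ h1 ⟨e2, g2⟩ h2 h3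
          simp only [Prod.mk.injEq] at h3
          refine Prod.ext h3.1 ?_
          exact hinj g1 h1.1 g2 h2.1 (mul_left_cancel h3.2)
        · intro z hz
          have hz' : (if z.1 ∈ A ∧ z.2 ∈ H then y z.1 (g₀ * φ z.2) else 0) ≠ 0 := hz
          by_cases hc : z.1 ∈ A ∧ z.2 ∈ H
          · rw [if_pos hc] at hz'
            exact ⟨hc.2, hz'⟩
          · rw [if_neg hc] at hz'
            exact absurd rfl hz'
      · refine transport (sub L (blockE L S₀ R v₀)).gen (sub L R).gen L.ini L.ter L.lab W A hA H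
          hgen φ hτ y hy ?_ g₀ _ ?_ ?_ ?_
        · intro e he
          by_cases heS : e ∈ S₀
          · right
            have hl : L.lab e ∉ W := fun hh => he ⟨heS, hh⟩
            exact ⟨fun hh => hl (((blk_edge L S₀ e heS).1.symm _ _).trans _ _ _ hh),
              fun hh => hl (((blk_edge L S₀ e heS).2.symm _ _).trans _ _ _ hh), hl⟩
          · exact Or.inl (hsup e heS)
        · intro e he g hg
          simp only [if_pos (And.intro he hg)]
        · intro e he g
          simp only [if_neg (fun hh : e ∈ A ∧ g ∈ H => he hh.1)]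
        · intro e g hg
          simp only [if_neg (fun hh : e ∈ A ∧ g ∈ H => hg hh.2)]
      · intro e he g
        by_cases hc : e ∈ A ∧ g ∈ H
        · have h1 : y e (g₀ * φ g) = 0 := hout e (fun hh => he ⟨hh, hc.1.1, hc.1.2⟩) _
          simp only [if_pos hc, h1]
        · simp only [if_neg hc]
    · intro e
      by_cases he : e ∈ R
      · exact Or.inr (Pool.Agent.N819.UD.gen_rel (sub L R) ⟨e, he⟩)
      · exact Or.inl (hout e he)
    · intro e he g
      exact hout e (fun h => he (hR h)) g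

theorem tower_trans (L : LOG V E) {S₀ S₁ S₂ : Set E} (h1 : Tower L S₀ S₁) (h2 : Tower L S₁ S₂) :
    Tower L S₀ S₂ := by
  induction h2 with
  | base => exact h1
  | stage S T _ hst ih => exact Tower.stage S T ih hst

/-- A set of edges is prime: it is not reached in stages from a smaller set, and it is one block. -/
def Prime (L : LOG V E) (R : Set E) : Prop :=
  (∀ S₀, Tower L S₀ R → S₀ = R) ∧ ∀ e ∈ R, ∀ e' ∈ R, Blk L R (L.lab e) (L.lab e')

/-- Every set of edges whose complex is not aspherical contains a prime set with this property. -/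
theorem exists_prime [Fintype V] [Fintype E] [DecidableEq V] (L : LOG V E) :
    ∀ (n : ℕ) (R : Set E), R.ncard = n → ¬ Asph (sub L R) →
      ∃ P ⊆ R, Prime L P ∧ ¬ Asph (sub L P) := by
  intro n
  induction n using Nat.strong_induction_on with
  | _ n ih =>
    intro R hn hR
    by_cases h1 : ∀ S₀, Tower L S₀ R → S₀ = R
    · by_cases h2 : ∀ e ∈ R, ∀ e' ∈ R, Blk L R (L.lab e) (L.lab e')
      · exact ⟨R, subset_rfl, ⟨h1, h2⟩, hR⟩
      · push Not at h2
        obtain ⟨e, he, e', he', hb⟩ := h2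
        rw [rel_asph L (Tower.base (S₀ := R)) R subset_rfl] at hR
        push Not at hR
        obtain ⟨v₀, hv₀⟩ := hR
        have hlt : blockE L R R v₀ ⊂ R := by
          refine ⟨blockE_sub L R R v₀, fun hsub => ?_⟩
          exact hb ((hsub he).2.2.trans _ _ _ ((hsub he').2.2.symm _ _))
        obtain ⟨P, hP, hP2⟩ := ih _ (by rw [← hn]; exact Set.ncard_lt_ncard hlt (Set.toFinite _))
          (blockE L R R v₀) rfl hv₀
        exact ⟨P, hP.trans (blockE_sub L R R v₀), hP2⟩
    · push Not at h1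
      obtain ⟨S₀, hT, hne⟩ := h1
      rw [rel_asph L hT R subset_rfl] at hR
      push Not at hR
      obtain ⟨v₀, hv₀⟩ := hR
      have hlt : blockE L S₀ R v₀ ⊂ R := by
        refine ⟨blockE_sub L S₀ R v₀, fun hsub => hne ?_⟩
        exact Set.Subset.antisymm (tower_sub L hT) fun e he => (hsub he).2.1
      obtain ⟨P, hP, hP2⟩ := ih _ (by rw [← hn]; exact Set.ncard_lt_ncard hlt (Set.toFinite _))
        (blockE L S₀ R v₀) rfl hv₀
      exact ⟨P, hP.trans (blockE_sub L S₀ R v₀), hP2⟩

end Pool.Agent.U499.TW
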