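import Pool.Agent.U499.TW.Rel

/-!
# Free products of locally indicable groups, and local indicability relative to blocks
-/

set_option autoImplicit false

namespace Pool.Agent.U499.TW

open Pool.Agent.TH625.LOG Pool.Agent.N819.LT Pool.Agent.N819.UD Monoid.Coprod

section FP

variable {A C : Type} [Group A] [Group C]

/-- the set of normal forms -/
abbrev XX (A C : Type) : Type := C × A × FreeGroup (A × C)

/-- the action of the first factor -/
def actA : A →* Function.End (XX A C) where
  toFun a' := fun x => (x.1, a' * x.2.1,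
    FreeGroup.of (a' * x.2.1, x.1) * (FreeGroup.of (x.2.1, x.1))⁻¹ * x.2.2)
  map_one' := by
    funext x
    show (x.1, 1 * x.2.1, FreeGroup.of (1 * x.2.1, x.1) * (FreeGroup.of (x.2.1, x.1))⁻¹ * x.2.2) = x
    rw [one_mul, mul_inv_cancel, one_mul]
  map_mul' a b := by
    funext x
    show (x.1, a * b * x.2.1,
      FreeGroup.of (a * b * x.2.1, x.1) * (FreeGroup.of (x.2.1, x.1))⁻¹ * x.2.2) =
      (x.1, a * (b * x.2.1), FreeGroup.of (a * (b * x.2.1), x.1) *
        (FreeGroup.of (b * x.2.1, x.1))⁻¹ *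
          (FreeGroup.of (b * x.2.1, x.1) * (FreeGroup.of (x.2.1, x.1))⁻¹ * x.2.2))
    rw [mul_assoc a b]
    refine Prod.ext rfl (Prod.ext rfl ?_)
    show _ * _ * _ = _ * _ * (_ * _ * _)
    group

/-- the action of the second factor -/
def actC : C →* Function.End (XX A C) where
  toFun c' := fun x => (c' * x.1, x.2.1, x.2.2)
  map_one' := by
    funext x
    show (1 * x.1, x.2.1, x.2.2) = x
    rw [one_mul]
  map_mul' a b := by
    funext x
    show (a * b * x.1, x.2.1, x.2.2) = (a * (b * x.1), x.2.1, x.2.2)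
    rw [mul_assoc]

/-- the action of the free product -/
def act : Monoid.Coprod A C →* Function.End (XX A C) := Monoid.Coprod.lift actA actC

/-- the value of a commutator -/
def psi : FreeGroup (A × C) →* Monoid.Coprod A C :=
  FreeGroup.lift fun z => ((inl z.1 : Monoid.Coprod A C))⁻¹ * (inr z.2)⁻¹ * inl z.1 * inr z.2

/-- the value of a normal form -/
def val (x : XX A C) : Monoid.Coprod A C := inr x.1 * inl x.2.1 * psi x.2.2

theorem act_inl (a : A) (x : XX A C) : act (inl a : Monoid.Coprod A C) x =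
    (x.1, a * x.2.1, FreeGroup.of (a * x.2.1, x.1) * (FreeGroup.of (x.2.1, x.1))⁻¹ * x.2.2) := by
  unfold act
  rw [Monoid.Coprod.lift_apply_inl]
  rfl

theorem act_inr (c : C) (x : XX A C) : act (inr c : Monoid.Coprod A C) x =
    (c * x.1, x.2.1, x.2.2) := by
  unfold act
  rw [Monoid.Coprod.lift_apply_inr]
  rfl

theorem act_mul (w w' : Monoid.Coprod A C) (x : XX A C) : act (w * w') x = act w (act w' x) := by
  rw [map_mul]
  rfl

theorem act_right (w : Monoid.Coprod A C) : ∀ (x : XX A C) (g : FreeGroup (A × C)),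
    act w (x.1, x.2.1, x.2.2 * g) = ((act w x).1, (act w x).2.1, (act w x).2.2 * g) := by
  induction w using Monoid.Coprod.induction_on with
  | inl a =>
    intro x g
    rw [act_inl, act_inl]
    refine Prod.ext rfl (Prod.ext rfl ?_)
    show _ * (x.2.2 * g) = _ * x.2.2 * g
    rw [mul_assoc _ x.2.2 g]
  | inr c =>
    intro x g
    rw [act_inr, act_inr]
  | mul w w' ih ih' =>
    intro x g
    rw [act_mul, act_mul, ih', ih]

theorem act_val (w : Monoid.Coprod A C) : ∀ x : XX A C, val (act w x) = w * val x := by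
  induction w using Monoid.Coprod.induction_on with
  | inl a =>
    intro x
    rw [act_inl]
    unfold val
    simp only [map_mul, map_inv]
    unfold psi
    simp only [FreeGroup.lift_apply_of, map_mul]
    group
  | inr c =>
    intro x
    rw [act_inr]
    unfold val
    simp only [map_mul, mul_assoc]
  | mul w w' ih ih' =>
    intro x
    rw [act_mul, ih, ih', mul_assoc]

theorem act_fst (w : Monoid.Coprod A C) : ∀ x : XX A C,
    (act w x).1 = Monoid.Coprod.snd w * x.1 ∧ (act w x).2.1 = Monoid.Coprod.fst w * x.2.1 := by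
  induction w using Monoid.Coprod.induction_on with
  | inl a =>
    intro x
    rw [act_inl]
    simp
  | inr c =>
    intro x
    rw [act_inr]
    simp
  | mul w w' ih ih' =>
    intro x
    rw [act_mul, (ih _).1, (ih _).2, (ih' _).1, (ih' _).2, map_mul, map_mul, mul_assoc, mul_assoc]
    exact ⟨rfl, rfl⟩

theorem locInd_free (X : Type) : LocInd (FreeGroup X) := by
  intro H _ hne
  obtain ⟨ψ, hψ⟩ := free_li H hne
  exact surj_of_ne ψ hψ

/-- **Free products of locally indicable groups.** -/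
theorem locInd_coprod (hA : LocInd A) (hC : LocInd C) : LocInd (Monoid.Coprod A C) := by
  intro H hH hne
  by_cases h1 : H ≤ (Monoid.Coprod.fst : Monoid.Coprod A C →* A).ker
  · by_cases h2 : H ≤ (Monoid.Coprod.snd : Monoid.Coprod A C →* C).ker
    · have key : ∀ h ∈ H, act h ((1, 1, 1) : XX A C) =
          (1, 1, (act h ((1, 1, 1) : XX A C)).2.2) := by
        intro h hh
        have k1 := act_fst h ((1, 1, 1) : XX A C)
        have k2 : Monoid.Coprod.snd h = 1 := h2 hh
        have k3 : Monoid.Coprod.fst h = 1 := h1 hh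
        rw [k2, k3] at k1
        exact Prod.ext (k1.1.trans (one_mul _)) (Prod.ext (k1.2.trans (one_mul _)) rfl)
      let θ : H →* FreeGroup (A × C) := MonoidHom.mk'
        (fun h => (act (h : Monoid.Coprod A C) ((1, 1, 1) : XX A C)).2.2) (by
          intro a b
          show (act ((a : Monoid.Coprod A C) * (b : Monoid.Coprod A C)) ((1, 1, 1) : XX A C)).2.2 = _
          rw [act_mul, key b b.2]
          have h3 := act_right (a : Monoid.Coprod A C) ((1, 1, 1) : XX A C)
            (act (b : Monoid.Coprod A C) ((1, 1, 1) : XX A C)).2.2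
          rw [one_mul] at h3
          rw [h3])
      have hval : val ((1, 1, 1) : XX A C) = 1 := by
        unfold val
        simp
      have hinj : ∀ h : H, θ h = 1 → h = 1 := by
        intro h hh
        have h3 := act_val (h : Monoid.Coprod A C) ((1, 1, 1) : XX A C)
        have h4 : (act (h : Monoid.Coprod A C) ((1, 1, 1) : XX A C)).2.2 = 1 := hh
        rw [key h h.2, h4, hval, mul_one] at h3
        exact Subtype.ext h3.symm
      have hr : θ.range ≠ ⊥ := by
        intro h0
        apply hne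
        rw [Subgroup.eq_bot_iff_forall]
        intro x hx
        have h3 : θ ⟨x, hx⟩ ∈ θ.range := ⟨_, rfl⟩
        rw [h0] at h3
        exact congrArg Subtype.val (hinj _ (Subgroup.mem_bot.1 h3))
      obtain ⟨ψ, z, hz⟩ := free_li θ.range hr
      refine surj_of_ne (ψ.comp θ.rangeRestrict) ?_
      obtain ⟨y, hy⟩ := θ.rangeRestrict_surjective z
      exact ⟨y, by rw [MonoidHom.comp_apply, hy]; exact hz⟩
    · exact hC.of_hom hH _ h2
  · exact hA.of_hom hH _ h1

theorem LocInd.of_inj {G B : Type} [Group G] [Group B] (hB : LocInd B) (f : G →* B)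
    (hf : ∀ x, f x = 1 → x = 1) : LocInd G := by
  intro H hH hne
  refine hB.of_hom hH f fun hle => hne ?_
  rw [Subgroup.eq_bot_iff_forall]
  exact fun x hx => hf x (hle hx)

end FP

variable {V E : Type}

/-- two parts without common vertices -/
theorem split_li (L : LOG V E) (W : Set V) (R₁ R₂ : Set E)
    (h1 : ∀ e ∈ R₁, L.ini e ∈ W ∧ L.ter e ∈ W ∧ L.lab e ∈ W)
    (h2 : ∀ e ∈ R₂, L.ini e ∉ W ∧ L.ter e ∉ W ∧ L.lab e ∉ W)
    (k1 : LocInd (sub L R₁).G) (k2 : LocInd (sub L R₂).G) : LocInd (sub L (R₁ ∪ R₂)).G := by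
  classical
  let f : V → Monoid.Coprod (sub L R₁).G (sub L R₂).G := fun v =>
    if v ∈ W then inl ((sub L R₁).gen v) else inr ((sub L R₂).gen v)
  have hf : ∀ r ∈ Set.range (sub L (R₁ ∪ R₂)).rel, FreeGroup.lift f r = 1 := by
    rintro _ ⟨⟨e, he⟩, rfl⟩
    show FreeGroup.lift f (FreeGroup.of (L.ini e) * FreeGroup.of (L.lab e) *
      (FreeGroup.of (L.ter e))⁻¹ * (FreeGroup.of (L.lab e))⁻¹) = 1
    simp only [map_mul, map_inv, FreeGroup.lift_apply_of]
    rcases he with he | he
    · obtain ⟨a1, a2, a3⟩ := h1 e he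
      have g1 : f (L.ini e) = inl ((sub L R₁).gen (L.ini e)) := if_pos a1
      have g2 : f (L.ter e) = inl ((sub L R₁).gen (L.ter e)) := if_pos a2
      have g3 : f (L.lab e) = inl ((sub L R₁).gen (L.lab e)) := if_pos a3
      have h5 : (sub L R₁).gen (L.ini e) * (sub L R₁).gen (L.lab e) =
        (sub L R₁).gen (L.lab e) * (sub L R₁).gen (L.ter e) :=
          Pool.Agent.N819.UD.gen_rel (sub L R₁) ⟨e, he⟩
      rw [g1, g2, g3, ← map_mul, h5, map_mul]
      group
    · obtain ⟨a1, a2, a3⟩ := h2 e he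
      have g1 : f (L.ini e) = inr ((sub L R₂).gen (L.ini e)) := if_neg a1
      have g2 : f (L.ter e) = inr ((sub L R₂).gen (L.ter e)) := if_neg a2
      have g3 : f (L.lab e) = inr ((sub L R₂).gen (L.lab e)) := if_neg a3
      have h5 : (sub L R₂).gen (L.ini e) * (sub L R₂).gen (L.lab e) =
        (sub L R₂).gen (L.lab e) * (sub L R₂).gen (L.ter e) :=
          Pool.Agent.N819.UD.gen_rel (sub L R₂) ⟨e, he⟩
      rw [g1, g2, g3, ← map_mul, h5, map_mul]
      group
  let F : (sub L (R₁ ∪ R₂)).G →* Monoid.Coprod (sub L R₁).G (sub L R₂).G :=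
    PresentedGroup.toGroup hf
  let B : Monoid.Coprod (sub L R₁).G (sub L R₂).G →* (sub L (R₁ ∪ R₂)).G :=
    Monoid.Coprod.lift (addE L R₁ (R₁ ∪ R₂) Set.subset_union_left)
      (addE L R₂ (R₁ ∪ R₂) Set.subset_union_right)
  have hBF : B.comp F = MonoidHom.id _ := by
    apply PresentedGroup.ext
    intro v
    have e1 : F (PresentedGroup.of v) = f v := PresentedGroup.toGroup.of hf
    show B (F (PresentedGroup.of v)) = PresentedGroup.of v
    rw [e1]
    by_cases hv : v ∈ W
    · have g1 : f v = inl ((sub L R₁).gen v) := if_pos hv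
      rw [g1]
      show Monoid.Coprod.lift _ _ (inl _) = _
      rw [Monoid.Coprod.lift_apply_inl, addE_gen]
      rfl
    · have g1 : f v = inr ((sub L R₂).gen v) := if_neg hv
      rw [g1]
      show Monoid.Coprod.lift _ _ (inr _) = _
      rw [Monoid.Coprod.lift_apply_inr, addE_gen]
      rfl
  refine LocInd.of_inj (locInd_coprod k1 k2) F fun x hx => ?_
  have e2 := DFunLike.congr_fun hBF x
  rw [MonoidHom.comp_apply, hx, map_one] at e2
  exact e2.symm

/-- all the blocks together -/
theorem blocks_li [Finite E] (L : LOG V E) (S₀ : Set E) : ∀ (n : ℕ) (R : Set E), R.ncard = n →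
    R ⊆ S₀ → (∀ v₀, LocInd (sub L (blockE L S₀ R v₀)).G) → LocInd (sub L R).G := by
  intro n
  induction n using Nat.strong_induction_on with
  | _ n ih =>
    intro R hn hR h
    rcases R.eq_empty_or_nonempty with h0 | ⟨e₀, he₀⟩
    · exact locInd_empty L R h0.subset
    · set v₀ := L.lab e₀ with hv₀
      have hu : blockE L S₀ R v₀ ∪ R \ blockE L S₀ R v₀ = R :=
        Set.union_sdiff_cancel (blockE_sub L S₀ R v₀)
      have hlt : R \ blockE L S₀ R v₀ ⊂ R := by
        refine ⟨Set.sdiff_subset, fun hsub => (hsub he₀).2 ⟨he₀, hR he₀, Relation.EqvGen.refl _⟩⟩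
      have h2 : LocInd (sub L (R \ blockE L S₀ R v₀)).G := by
        refine ih _ (by rw [← hn]; exact Set.ncard_lt_ncard hlt (Set.toFinite _)) _ rfl
          (hlt.1.trans hR) fun v₁ => ?_
        by_cases hb : Blk L S₀ v₁ v₀
        · refine locInd_empty L _ fun e he => ?_
          exact he.1.2 ⟨he.1.1, he.2.1, he.2.2.trans _ _ _ hb⟩
        · have heq : blockE L S₀ (R \ blockE L S₀ R v₀) v₁ = blockE L S₀ R v₁ := by
            ext e
            constructor
            · exact fun he => ⟨he.1.1, he.2⟩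
            · refine fun he => ⟨⟨he.1, fun hh => hb ?_⟩, he.2⟩
              exact (he.2.2.symm _ _).trans _ _ _ hh.2.2
          rw [heq]
          exact h v₁
      have h3 := split_li L {v | Blk L S₀ v v₀} (blockE L S₀ R v₀) (R \ blockE L S₀ R v₀)
        (fun e he => ⟨(blk_edge L S₀ e he.2.1).1.trans _ _ _ he.2.2,
          (blk_edge L S₀ e he.2.1).2.trans _ _ _ he.2.2, he.2.2⟩) (fun e he => ?_) (h v₀) h2
      · rwa [hu] at h3
      · have hl : ¬ Blk L S₀ (L.lab e) v₀ := fun hh => he.2 ⟨he.1, hR he.1, hh⟩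
        exact ⟨fun hh => hl (((blk_edge L S₀ e (hR he.1)).1.symm _ _).trans _ _ _ hh),
          fun hh => hl (((blk_edge L S₀ e (hR he.1)).2.symm _ _).trans _ _ _ hh), hl⟩

/-- from the whole graph to the blocks -/
theorem li_block [Finite E] (L : LOG V E) {S₀ S : Set E} (hT : Tower L S₀ S) (R : Set E)
    (hR : R ⊆ S) (h : LocInd (sub L R).G) (v₀ : V) : LocInd (sub L (blockE L S₀ R v₀)).G := by
  classical
  set N := sub L (blockE L S₀ R v₀) with hN
  set H := Subgroup.closure (N.gen '' {v | Blk L S₀ v v₀}) with hH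
  have hgen : ∀ v, Blk L S₀ v v₀ → N.gen v ∈ H := fun v hv => Subgroup.subset_closure ⟨v, hv, rfl⟩
  have hHli : LocInd H := by
    refine LocInd.of_inj h ((addE L (blockE L S₀ R v₀) R (blockE_sub L S₀ R v₀)).comp H.subtype)
      fun x hx => ?_
    exact Subtype.ext (block_inj L hT v₀ R hR x x.2 1 H.one_mem (by rw [map_one]; exact hx))
  let f : V → Monoid.Coprod H (FreeGroup V) := fun v =>
    if hv : Blk L S₀ v v₀ then inl ⟨N.gen v, hgen v hv⟩ else inr (FreeGroup.of v)
  have hf : ∀ r ∈ Set.range N.rel, FreeGroup.lift f r = 1 := by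
    rintro _ ⟨⟨e, he⟩, rfl⟩
    show FreeGroup.lift f (FreeGroup.of (L.ini e) * FreeGroup.of (L.lab e) *
      (FreeGroup.of (L.ter e))⁻¹ * (FreeGroup.of (L.lab e))⁻¹) = 1
    simp only [map_mul, map_inv, FreeGroup.lift_apply_of]
    have a1 : Blk L S₀ (L.ini e) v₀ := (blk_edge L S₀ e he.2.1).1.trans _ _ _ he.2.2
    have a2 : Blk L S₀ (L.ter e) v₀ := (blk_edge L S₀ e he.2.1).2.trans _ _ _ he.2.2
    have a3 : Blk L S₀ (L.lab e) v₀ := he.2.2
    have g1 : f (L.ini e) = inl ⟨N.gen (L.ini e), hgen _ a1⟩ := dif_pos a1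
    have g2 : f (L.ter e) = inl ⟨N.gen (L.ter e), hgen _ a2⟩ := dif_pos a2
    have g3 : f (L.lab e) = inl ⟨N.gen (L.lab e), hgen _ a3⟩ := dif_pos a3
    have h5 : (⟨N.gen (L.ini e), hgen _ a1⟩ : H) * ⟨N.gen (L.lab e), hgen _ a3⟩ =
        ⟨N.gen (L.lab e), hgen _ a3⟩ * ⟨N.gen (L.ter e), hgen _ a2⟩ :=
      Subtype.ext (Pool.Agent.N819.UD.gen_rel N ⟨e, he⟩)
    rw [g1, g2, g3, ← map_mul, h5, map_mul]
    group
  let F : N.G →* Monoid.Coprod H (FreeGroup V) := PresentedGroup.toGroup hf
  let B : Monoid.Coprod H (FreeGroup V) →* N.G :=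
    Monoid.Coprod.lift H.subtype (FreeGroup.lift N.gen)
  have hBF : B.comp F = MonoidHom.id _ := by
    apply PresentedGroup.ext
    intro v
    have e1 : F (PresentedGroup.of v) = f v := PresentedGroup.toGroup.of hf
    show B (F (PresentedGroup.of v)) = PresentedGroup.of v
    rw [e1]
    by_cases hv : Blk L S₀ v v₀
    · have g1 : f v = inl ⟨N.gen v, hgen v hv⟩ := dif_pos hv
      rw [g1]
      show Monoid.Coprod.lift _ _ (inl _) = _
      rw [Monoid.Coprod.lift_apply_inl]
      rfl
    · have g1 : f v = inr (FreeGroup.of v) := dif_neg hv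
      rw [g1]
      show Monoid.Coprod.lift _ _ (inr _) = _
      rw [Monoid.Coprod.lift_apply_inr, FreeGroup.lift_apply_of]
      rfl
  refine LocInd.of_inj (locInd_coprod hHli (locInd_free V)) F fun x hx => ?_
  have e2 := DFunLike.congr_fun hBF x
  rw [MonoidHom.comp_apply, hx, map_one] at e2
  exact e2.symm

/-- one set of edges -/
theorem tower_li_one [Finite E] (L : LOG V E) {S₀ S : Set E} (hT : Tower L S₀ S) :
    ∀ R ⊆ S, LocInd (sub L (R ∩ S₀)).G → LocInd (sub L R).G := by
  induction hT with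
  | base =>
    intro R hR h
    rwa [Set.inter_eq_left.2 hR] at h
  | stage S T hS hst ih =>
    intro R hR h
    have h4 : R ∩ S ∩ S₀ = R ∩ S₀ := by
      rw [Set.inter_assoc, Set.inter_eq_right.2 (tower_sub L hS)]
    have h3 := ih (R ∩ S) Set.inter_subset_right (by rwa [h4])
    have h1 := (stage_any L S T hst (R ∩ S) (R ∩ T) Set.inter_subset_right
      Set.inter_subset_right).1 h3
    have h2 : R ∩ S ∪ R ∩ T = R := by
      rw [← Set.inter_union_distrib_left]
      exact Set.inter_eq_left.2 hR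
    rwa [h2] at h1

/-- **Relative local indicability.** -/
theorem rel_li [Finite E] (L : LOG V E) {S₀ S : Set E} (hT : Tower L S₀ S) (R : Set E)
    (hR : R ⊆ S) :
    LocInd (sub L R).G ↔ ∀ v₀, LocInd (sub L (blockE L S₀ R v₀)).G := by
  refine ⟨fun h v₀ => li_block L hT R hR h v₀, fun h => tower_li_one L hT R hR ?_⟩
  refine blocks_li L S₀ _ (R ∩ S₀) rfl Set.inter_subset_right fun v₀ => ?_
  have heq : blockE L S₀ (R ∩ S₀) v₀ = blockE L S₀ R v₀ := by
    ext e
    exact ⟨fun he => ⟨he.1.1, he.2⟩, fun he => ⟨⟨he.1, he.2.1⟩, he.2⟩⟩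
  rw [heq]
  exact h v₀

/-- Every set of edges whose group is not locally indicable contains a prime one. -/
theorem exists_prime_li [Finite E] (L : LOG V E) :
    ∀ (n : ℕ) (R : Set E), R.ncard = n → ¬ LocInd (sub L R).G →
      ∃ P ⊆ R, Prime L P ∧ ¬ LocInd (sub L P).G := by
  intro n
  induction n using Nat.strong_induction_on with
  | _ n ih =>
    intro R hn hR
    by_cases h1 : ∀ S₀, Tower L S₀ R → S₀ = R
    · by_cases h2 : ∀ e ∈ R, ∀ e' ∈ R, Blk L R (L.lab e) (L.lab e')
      · exact ⟨R, subset_rfl, ⟨h1, h2⟩, hR⟩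
      · push Not at h2
        obtain ⟨e, he, e', he', hb⟩ := h2
        rw [rel_li L (Tower.base (S₀ := R)) R subset_rfl] at hR
        push Not at hR
        obtain ⟨v₀, hv₀⟩ := hR
        have hlt : blockE L R R v₀ ⊂ R := by
          refine ⟨blockE_sub L R R v₀, fun hsub => ?_⟩
          exact hb ((hsub he).2.2.trans _ _ _ ((hsub he').2.2.symm _ _))
        obtain ⟨P, hP, hP2⟩ := ih _ (by rw [← hn]; exact Set.ncard_lt_ncard hlt (Set.toFinite _))
          (blockE L R R v₀) rfl hv₀
        exact ⟨P, hP.trans (blockE_sub L R R v₀), hP2⟩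
    · push Not at h1
      obtain ⟨S₀, hT, hne⟩ := h1
      rw [rel_li L hT R subset_rfl] at hR
      push Not at hR
      obtain ⟨v₀, hv₀⟩ := hR
      have hlt : blockE L S₀ R v₀ ⊂ R := by
        refine ⟨blockE_sub L S₀ R v₀, fun hsub => hne ?_⟩
        exact Set.Subset.antisymm (tower_sub L hT) fun e he => (hsub he).2.1
      obtain ⟨P, hP, hP2⟩ := ih _ (by rw [← hn]; exact Set.ncard_lt_ncard hlt (Set.toFinite _))
        (blockE L S₀ R v₀) rfl hv₀
      exact ⟨P, hP.trans (blockE_sub L S₀ R v₀), hP2⟩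

end Pool.Agent.U499.TW
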