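import Pool.Agent.N819.UD.Fin

/-!
# One stage of a tower of decompositions of a labelled oriented graph

The classes of old vertices are collapsed; the chains of the new edges satisfy, in the two lowest
degrees, the equations of the chains of the quotient graph.
-/

set_option autoImplicit false

namespace Pool.Agent.U499.TW

open Pool.Agent.TH625.LOG Pool.Agent.N819.LT Pool.Agent.N819.UD Finset

/-- The core of `Pool.Agent.N819.UD.core`, with the equations of the two lowest degrees as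
hypotheses. -/
theorem core2 (hD : S_DUAL) (hC : S_CYC) (hX : S_EXCH) {V E G : Type} [Fintype V] [Fintype E]
    [DecidableEq V] [DecidableEq E] [Group G] (γ : E → G) (χ : G →* Multiplicative ℤ)
    (hγ : ∀ e, χ (γ e) = Multiplicative.ofAdd 1) (p q lab : E → V)
    (hcard : Fintype.card V = Fintype.card E + 1)
    (hu : ∃! S : Set E, Mix p q lab S ∧ Spans p lab S) (y : E → G → ZMod 2)
    (hfin : {z : E × G | y z.1 z.2 ≠ 0}.Finite)
    (hone : ∀ d : ℤ, (∀ e g, y e g ≠ 0 → d ≤ Multiplicative.toAdd (χ g)) →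
      ∀ (k : G), Multiplicative.toAdd (χ k) = d → ∀ u : V → ZMod 2,
        ∑ e, y e k * (u (p e) + u (lab e)) = 0)
    (htwo : ∀ d : ℤ, (∀ e g, y e g ≠ 0 → d ≤ Multiplicative.toAdd (χ g)) →
      ∀ a : V → ZMod 2, (∀ e, a (p e) = a (lab e)) → ∀ h : G,
        Multiplicative.toAdd (χ h) = d + 1 →
        ∑ e, (a (lab e) + a (q e)) * y e (h * (γ e)⁻¹) = 0) : ∀ e g, y e g = 0 := by
  classical
  obtain ⟨S, ⟨hM, hS⟩, huniq⟩ := hu
  obtain ⟨a, ha, hexp⟩ := hD V E (mp p q S) lab hcard hM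
  by_contra hne
  push Not at hne
  obtain ⟨e', g', hne⟩ := hne
  obtain ⟨⟨e0, g0⟩, h0, hmin0⟩ := Set.exists_min_image {z : E × G | y z.1 z.2 ≠ 0}
    (fun z => Multiplicative.toAdd (χ z.2)) hfin ⟨(e', g'), hne⟩
  have hmin : ∀ e g, y e g ≠ 0 → Multiplicative.toAdd (χ g0) ≤ Multiplicative.toAdd (χ g) :=
    fun e g h => hmin0 (e, g) h
  have hmpS : ∀ e ∈ S, mp p q S e = p e := fun e he => by unfold mp; exact if_pos he
  have hmpN : ∀ e, e ∉ S → mp p q S e = q e := fun e he => by unfold mp; exact if_neg he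
  -- the dual functions outside `S` are constant on the initial components
  have hconst : ∀ f, f ∉ S → ∀ e, a f (p e) = a f (lab e) := by
    intro f hf e
    refine z2' _ _ (hS (fun z => a f z = 0) ?_ e)
    intro e he
    have h1 := ha f e
    have hef : e ≠ f := by rintro rfl; exact hf he
    rw [hmpS e he, if_neg hef] at h1
    rw [z2 _ _ h1]
  have claim1 : ∀ b ∈ S, ∀ k, Multiplicative.toAdd (χ k) = Multiplicative.toAdd (χ g0) →
      y b k ≠ 0 → ∃ e, e ∉ S ∧ y e k ≠ 0 ∧ a b (p e) + a b (lab e) ≠ 0 := by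
    intro b hb k hk hyb
    by_contra hcon
    push Not at hcon
    have h1 := hone _ hmin k hk (a b)
    rw [Finset.sum_eq_single b] at h1
    · have h2 := ha b b
      rw [hmpS b hb, if_pos rfl] at h2
      rw [h2, mul_one] at h1
      exact hyb h1
    · intro e _ he
      by_cases heS : e ∈ S
      · have h2 := ha b e
        rw [hmpS e heS, if_neg he] at h2
        rw [h2, mul_zero]
      · by_cases hye : y e k = 0
        · rw [hye, zero_mul]
        · rw [hcon e heS hye, mul_zero]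
    · intro h; exact absurd (Finset.mem_univ _) h
  let A : Set E := {e | e ∉ S ∧ ∃ k, Multiplicative.toAdd (χ k) = Multiplicative.toAdd (χ g0) ∧
    y e k ≠ 0}
  have hA : A.Nonempty := by
    by_cases he0 : e0 ∈ S
    · obtain ⟨e, h1, h2, -⟩ := claim1 e0 he0 g0 rfl h0
      exact ⟨e, h1, g0, rfl, h2⟩
    · exact ⟨e0, he0, g0, rfl, h0⟩
  have hpred : ∀ e0 ∈ A, ∃ e1 ∈ A, ∃ b ∈ S, (a b (p e1) + a b (lab e1) ≠ 0) ∧
      (a e0 (q b) + a e0 (lab b) ≠ 0) := by
    rintro f ⟨hf, k, hk, hyk⟩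
    have h1 := htwo _ hmin (a f) (hconst f hf) (k * γ f) (by
      rw [map_mul, hγ, ← hk]; rfl)
    have hex : ∃ b ∈ S, (a f (lab b) + a f (q b)) * y b (k * γ f * (γ b)⁻¹) ≠ 0 := by
      by_contra hcon
      push Not at hcon
      rw [Finset.sum_eq_single f] at h1
      · rw [mul_inv_cancel_right] at h1
        have h2 := ha f f
        rw [hmpN f hf, if_pos rfl, add_comm] at h2
        rw [h2, one_mul] at h1
        exact hyk h1
      · intro e _ he
        by_cases heS : e ∈ S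
        · exact hcon e heS
        · have h2 := ha f e
          rw [hmpN e heS, if_neg he, add_comm] at h2
          rw [h2, zero_mul]
      · intro h; exact absurd (Finset.mem_univ _) h
    obtain ⟨b, hb, hbn⟩ := hex
    have hb1 := left_ne_zero_of_mul hbn
    have hb2 := right_ne_zero_of_mul hbn
    have hdeg : Multiplicative.toAdd (χ (k * γ f * (γ b)⁻¹)) =
        Multiplicative.toAdd (χ g0) := by
      have e1 : χ (k * γ f * (γ b)⁻¹) = χ k := by
        rw [map_mul χ, map_mul χ, map_inv χ, hγ, hγ, mul_inv_cancel_right]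
      rw [e1, hk]
    obtain ⟨e1, g1, g2, g3⟩ := claim1 b hb _ hdeg hb2
    exact ⟨e1, ⟨g1, _, hdeg, g2⟩, b, hb, g3, by rwa [add_comm]⟩
  obtain ⟨W, β, σ, hW, hWA, hβ, hσ, hinj, hP, hQ⟩ := hC E
    (fun e b => a b (p e) + a b (lab e) ≠ 0) (fun b e => a e (q b) + a e (lab b) ≠ 0) A S hA hpred
  obtain ⟨S', hne', hM', hS'⟩ := hX V E p q lab S a W β σ hcard hS ha hexp hW
    (fun e he => (hWA e he).1) hβ hσ hinj hP hQ
  exact hne' (huniq S' ⟨hM', hS'⟩)

theorem deg_one {G : Type} [Group G] {χ : G →* Multiplicative ℤ} {a : G}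
    (ha : χ a = Multiplicative.ofAdd 1) (g : G) :
    Multiplicative.toAdd (χ (g * a⁻¹)) = Multiplicative.toAdd (χ g) - 1 := by
  rw [map_mul, map_inv, ha]
  rfl

section

variable {B T G : Type} [Fintype B] [Fintype T] [Group G]

/-- The equations of the chains of the new edges, modulo two. -/
theorem core3 (χ : G →* Multiplicative ℤ) (xp xl xq : T → G)
    (hp : ∀ e, χ (xp e) = Multiplicative.ofAdd 1) (hl : ∀ e, χ (xl e) = Multiplicative.ofAdd 1)
    (hq : ∀ e, χ (xq e) = Multiplicative.ofAdd 1) (P Q Λ : T → B)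
    (hcard : Fintype.card B = Fintype.card T + 1)
    (hu : ∃! S : Set T, Mix P Q Λ S ∧ Spans P Λ S) (y : T → G → ZMod 2)
    (hfin : {z : T × G | y z.1 z.2 ≠ 0}.Finite)
    (key : ∀ (u : B → ZMod 2) (g : G),
      ∑ e : T, (u (P e) * (y e g + y e (g * (xp e)⁻¹)) +
        u (Λ e) * (y e (g * (xp e)⁻¹) + y e (g * (xl e)⁻¹ * (xp e)⁻¹) + y e g +
          y e (g * (xl e)⁻¹)) +
        u (Q e) * (y e (g * (xl e)⁻¹) + y e (g * (xq e)⁻¹ * (xl e)⁻¹))) = 0) :
    ∀ e g, y e g = 0 := by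
  classical
  refine core2 Pool.Agent.N195.UDDUAL.main Pool.Agent.N667.UDC.main
    Pool.Agent.N281.UDEXCH.main xl χ hl P Q Λ hcard hu y hfin ?_ ?_
  · intro d hmin k hk u
    have hz : ∀ (e : T) (g : G), Multiplicative.toAdd (χ g) < d → y e g = 0 := by
      intro e g hg
      by_contra hne
      exact absurd (hmin e g hne) (not_le.2 hg)
    have h1 := key u k
    rw [← h1]
    refine Finset.sum_congr rfl fun e _ => ?_
    rw [hz e (k * (xp e)⁻¹) (by rw [deg_one (hp _)]; omega),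
      hz e (k * (xl e)⁻¹) (by rw [deg_one (hl _)]; omega),
      hz e (k * (xl e)⁻¹ * (xp e)⁻¹) (by rw [deg_one (hp _), deg_one (hl _)]; omega),
      hz e (k * (xq e)⁻¹ * (xl e)⁻¹) (by rw [deg_one (hl _), deg_one (hq _)]; omega)]
    ring
  · intro d hmin a ha h hh
    have hz : ∀ (e : T) (g : G), Multiplicative.toAdd (χ g) < d → y e g = 0 := by
      intro e g hg
      by_contra hne
      exact absurd (hmin e g hne) (not_le.2 hg)
    have h1 := key a h
    rw [← h1]
    refine Finset.sum_congr rfl fun e _ => ?_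
    rw [hz e (h * (xl e)⁻¹ * (xp e)⁻¹) (by rw [deg_one (hp _), deg_one (hl _)]; omega),
      hz e (h * (xq e)⁻¹ * (xl e)⁻¹) (by rw [deg_one (hl _), deg_one (hq _)]; omega), ha e]
    have t1 := z2s (a (Λ e) * y e h)
    have t2 := z2s (a (Λ e) * y e (h * (xp e)⁻¹))
    linear_combination - t1 - t2

/-- The equations of the chains of the new edges. -/
def KeyZ (xp xl xq : T → G) (P Q Λ : T → B) (y : T → G → ℤ) : Prop :=
  ∀ (u : B → ℤ) (g : G),
    ∑ e : T, (u (P e) * (y e (g * (xp e)⁻¹) - y e g) +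
      u (Λ e) * (y e (g * (xl e)⁻¹ * (xp e)⁻¹) - y e (g * (xp e)⁻¹) - y e (g * (xl e)⁻¹) + y e g) -
      u (Q e) * (y e (g * (xq e)⁻¹ * (xl e)⁻¹) - y e (g * (xl e)⁻¹))) = 0

theorem core4 (χ : G →* Multiplicative ℤ) (xp xl xq : T → G)
    (hp : ∀ e, χ (xp e) = Multiplicative.ofAdd 1) (hl : ∀ e, χ (xl e) = Multiplicative.ofAdd 1)
    (hq : ∀ e, χ (xq e) = Multiplicative.ofAdd 1) (P Q Λ : T → B)
    (hcard : Fintype.card B = Fintype.card T + 1)
    (hu : ∃! S : Set T, Mix P Q Λ S ∧ Spans P Λ S) (n : ℕ) :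
    ∀ y : T → G → ℤ, {z : T × G | y z.1 z.2 ≠ 0}.Finite → KeyZ xp xl xq P Q Λ y →
      ∀ e g, (2 : ℤ) ^ n ∣ y e g := by
  induction n with
  | zero => intro y _ _ e g; rw [pow_zero]; exact one_dvd _
  | succ n ih =>
    intro y hfin hy e g
    have h1 : ∀ e g, ((y e g : ℤ) : ZMod 2) = 0 := by
      refine core3 χ xp xl xq hp hl hq P Q Λ hcard hu (fun e g => ((y e g : ℤ) : ZMod 2)) ?_ ?_
      · refine hfin.subset fun z hz => ?_
        intro h
        apply hz
        show ((y z.1 z.2 : ℤ) : ZMod 2) = 0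
        rw [h, Int.cast_zero]
      · intro u g
        have h2 := congrArg (fun m : ℤ => (m : ZMod 2)) (hy (fun b => ((u b).val : ℤ)) g)
        have hu' : ∀ b, ((((u b).val : ℤ)) : ZMod 2) = u b := fun b => by
          rw [Int.cast_natCast, ZMod.natCast_zmod_val]
        simp only [Int.cast_sum, Int.cast_sub, Int.cast_add, Int.cast_mul, hu', Int.cast_zero,
          CharTwo.sub_eq_add] at h2
        rw [← h2]
        refine Finset.sum_congr rfl fun e _ => ?_
        ring
    have h2 : ∀ e g, 2 ∣ y e g := fun e g =>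
      (ZMod.intCast_zmod_eq_zero_iff_dvd (y e g) 2).1 (h1 e g)
    choose y' hy' using h2
    have h3 := ih y' ?_ ?_ e g
    · obtain ⟨m, hm⟩ := h3
      exact ⟨m, by rw [hy' e g, hm, pow_succ]; ring⟩
    · refine hfin.subset fun z hz => ?_
      intro h
      apply hz
      have := hy' z.1 z.2
      omega
    · intro u g
      have h4 := hy u g
      simp only [hy'] at h4
      have h5 : (2 : ℤ) * ∑ e : T, (u (P e) * (y' e (g * (xp e)⁻¹) - y' e g) +
          u (Λ e) * (y' e (g * (xl e)⁻¹ * (xp e)⁻¹) - y' e (g * (xp e)⁻¹) -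
            y' e (g * (xl e)⁻¹) + y' e g) -
          u (Q e) * (y' e (g * (xq e)⁻¹ * (xl e)⁻¹) - y' e (g * (xl e)⁻¹))) = 0 := by
        rw [← h4, Finset.mul_sum]
        refine Finset.sum_congr rfl fun e _ => ?_
        ring
      omega

theorem core5 (χ : G →* Multiplicative ℤ) (xp xl xq : T → G)
    (hp : ∀ e, χ (xp e) = Multiplicative.ofAdd 1) (hl : ∀ e, χ (xl e) = Multiplicative.ofAdd 1)
    (hq : ∀ e, χ (xq e) = Multiplicative.ofAdd 1) (P Q Λ : T → B)
    (hcard : Fintype.card B = Fintype.card T + 1)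
    (hu : ∃! S : Set T, Mix P Q Λ S ∧ Spans P Λ S)
    (y : T → G → ℤ) (hfin : {z : T × G | y z.1 z.2 ≠ 0}.Finite) (hy : KeyZ xp xl xq P Q Λ y)
    (e : T) (g : G) : y e g = 0 := by
  have h1 := core4 χ xp xl xq hp hl hq P Q Λ hcard hu (y e g).natAbs y hfin hy e g
  refine Int.eq_zero_of_abs_lt_dvd h1 ?_
  have h2 : (y e g).natAbs < 2 ^ (y e g).natAbs := Nat.lt_two_pow_self
  rw [Int.abs_eq_natAbs]
  exact_mod_cast h2

end

section

variable {V E G : Type} [Fintype V] [Fintype E] [DecidableEq V] [Group G]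

/-- The integral chain `y` lies in the kernel of the boundary operator. -/
def KerZ (x : V → G) (p q lab : E → V) (y : E → G → ℤ) : Prop :=
  ∀ v g, ∑ e, ((if p e = v then y e g else 0) +
        (if lab e = v then y e (g * (x (p e))⁻¹) else 0) -
        (if lab e = v then y e g else 0) -
        (if q e = v then y e (g * (x (lab e))⁻¹) else 0)) = 0

omit [Group G] in
theorem sum_indZ (u : V → ℤ) (w : E → V) (F : E → V → ℤ) :
    ∑ v, u v * ∑ e, (if w e = v then F e v else 0) = ∑ e, u (w e) * F e (w e) := by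
  simp only [Finset.mul_sum, mul_ite, mul_zero]
  rw [Finset.sum_comm]
  refine Finset.sum_congr rfl fun e _ => ?_
  rw [Finset.sum_eq_single (w e)]
  · rw [if_pos rfl]
  · intro v _ hv
    rw [if_neg fun h => hv h.symm]
  · intro h; exact absurd (Finset.mem_univ _) h

/-- The combination of the equations of the kernel with the coefficients `w v (x_v - 1)`. -/
theorem block_eq (x : V → G) (p q lab : E → V) (y : E → G → ℤ) (hy : KerZ x p q lab y)
    (w : V → ℤ) (g : G) :
    ∑ e, (w (p e) * (y e (g * (x (p e))⁻¹) - y e g) +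
      w (lab e) * (y e (g * (x (lab e))⁻¹ * (x (p e))⁻¹) - y e (g * (x (p e))⁻¹) -
        y e (g * (x (lab e))⁻¹) + y e g) -
      w (q e) * (y e (g * (x (q e))⁻¹ * (x (lab e))⁻¹) - y e (g * (x (lab e))⁻¹))) = 0 := by
  have h1 : ∑ v, w v * ∑ e, ((if p e = v then y e g else 0) +
        (if lab e = v then y e (g * (x (p e))⁻¹) else 0) -
        (if lab e = v then y e g else 0) -
        (if q e = v then y e (g * (x (lab e))⁻¹) else 0)) = 0 :=
    Finset.sum_eq_zero fun v _ => by rw [hy v g, mul_zero]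
  have h2 : ∑ v, w v * ∑ e, ((if p e = v then y e (g * (x v)⁻¹) else 0) +
        (if lab e = v then y e (g * (x v)⁻¹ * (x (p e))⁻¹) else 0) -
        (if lab e = v then y e (g * (x v)⁻¹) else 0) -
        (if q e = v then y e (g * (x v)⁻¹ * (x (lab e))⁻¹) else 0)) = 0 :=
    Finset.sum_eq_zero fun v _ => by rw [hy v (g * (x v)⁻¹), mul_zero]
  simp only [Finset.sum_add_distrib, Finset.sum_sub_distrib, mul_add, mul_sub] at h1 h2
  rw [sum_indZ w p (fun e _ => y e g), sum_indZ w lab (fun e _ => y e (g * (x (p e))⁻¹)),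
    sum_indZ w lab (fun e _ => y e g), sum_indZ w q (fun e _ => y e (g * (x (lab e))⁻¹))] at h1
  rw [sum_indZ w p (fun e v => y e (g * (x v)⁻¹)),
    sum_indZ w lab (fun e v => y e (g * (x v)⁻¹ * (x (p e))⁻¹)),
    sum_indZ w lab (fun e v => y e (g * (x v)⁻¹)),
    sum_indZ w q (fun e v => y e (g * (x v)⁻¹ * (x (lab e))⁻¹))] at h2
  simp only [mul_add, mul_sub, Finset.sum_add_distrib, Finset.sum_sub_distrib]
  linear_combination h2 - h1

/-- **One stage, initial version.** -/
theorem level (x : V → G) (χ : G →* Multiplicative ℤ)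
    (hχ : ∀ v, χ (x v) = Multiplicative.ofAdd 1) (p q lab : E → V) (y : E → G → ℤ)
    (hfin : {z : E × G | y z.1 z.2 ≠ 0}.Finite) (hy : KerZ x p q lab y)
    {B : Type} [Fintype B] (T : Set E) [Fintype T] (κ : V → Option B)
    (P Q Λ : T → B) (hP : ∀ e : T, κ (p e) = some (P e)) (hQ : ∀ e : T, κ (q e) = some (Q e))
    (hΛ : ∀ e : T, κ (lab e) = some (Λ e)) (hcard : Fintype.card B = Fintype.card T + 1)
    (hu : ∃! S : Set T, Mix P Q Λ S ∧ Spans P Λ S)
    (hin : ∀ e, e ∉ T → (∀ g, y e g = 0) ∨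
      (x (p e) * x (lab e) = x (lab e) * x (q e) ∧ κ (p e) = κ (lab e) ∧ κ (q e) = κ (lab e))) :
    ∀ e ∈ T, ∀ g, y e g = 0 := by
  classical
  intro e he g
  refine core5 χ (fun e : T => x (p e)) (fun e : T => x (lab e)) (fun e : T => x (q e))
    (fun e => hχ _) (fun e => hχ _) (fun e => hχ _) P Q Λ hcard hu (fun e g => y e g) ?_ ?_
    ⟨e, he⟩ g
  · refine (hfin.preimage (f := fun z : T × G => ((z.1 : E), z.2)) ?_).subset ?_
    · rintro ⟨e1, g1⟩ _ ⟨e2, g2⟩ _ h
      simp only [Prod.mk.injEq] at h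
      exact Prod.ext (Subtype.ext h.1) h.2
    · intro z hz
      exact hz
  · intro u g
    refine Eq.trans ?_ (block_eq x p q lab y hy (fun v => (κ v).elim 0 u) g)
    refine Fintype.sum_of_injective (fun e : T => (e : E)) Subtype.val_injective _ _ ?_ ?_
    · intro e he
      have he' : e ∉ T := fun h => he ⟨⟨e, h⟩, rfl⟩
      rcases hin e he' with h0 | ⟨hr, h1, h2⟩
      · simp only [h0]
        ring
      · have h3 : g * (x (q e))⁻¹ * (x (lab e))⁻¹ = g * (x (lab e))⁻¹ * (x (p e))⁻¹ := by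
          rw [mul_assoc, mul_assoc, ← mul_inv_rev, ← mul_inv_rev, hr]
        rw [h3, h1, h2]
        ring
    · intro e
      rw [hP e, hQ e, hΛ e]
      rfl

omit [Fintype V] in
/-- the reversed chain -/
theorem ker_rev' (x : V → G) (p q lab : E → V) (y : E → G → ℤ) (hy : KerZ x p q lab y)
    (hrel : ∀ e, (∀ g, y e g = 0) ∨ x (p e) * x (lab e) = x (lab e) * x (q e)) :
    KerZ (fun v => (x v)⁻¹) q p lab (fun e g => y e (g * (x (lab e))⁻¹ * (x (p e))⁻¹)) := by
  intro v g
  have h := hy v (g * (x v)⁻¹)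
  rw [← neg_eq_zero, ← Finset.sum_neg_distrib]
  refine Eq.trans (Finset.sum_congr rfl fun e _ => ?_) h
  rcases hrel e with h0 | hr
  · simp only [h0, ite_self]
    ring
  have hri : ∀ g : G, g * (x (lab e))⁻¹ * (x (p e))⁻¹ = g * (x (q e))⁻¹ * (x (lab e))⁻¹ := by
    intro g
    rw [mul_assoc, mul_assoc, ← mul_inv_rev, ← mul_inv_rev, hr]
  have t1 : (if q e = v then y e (g * (x (lab e))⁻¹ * (x (p e))⁻¹) else 0) =
      if q e = v then y e (g * (x v)⁻¹ * (x (lab e))⁻¹) else 0 := by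
    split_ifs with h1
    · subst h1
      rw [hri]
    · rfl
  have t2 : (if lab e = v then y e (g * ((x (q e))⁻¹)⁻¹ * (x (lab e))⁻¹ * (x (p e))⁻¹) else 0) =
      if lab e = v then y e (g * (x v)⁻¹) else 0 := by
    split_ifs with h1
    · subst h1
      rw [hri, inv_inv, mul_inv_cancel_right]
    · rfl
  have t3 : (if lab e = v then y e (g * (x (lab e))⁻¹ * (x (p e))⁻¹) else 0) =
      if lab e = v then y e (g * (x v)⁻¹ * (x (p e))⁻¹) else 0 := by
    split_ifs with h1
    · subst h1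
      rfl
    · rfl
  have t4 : (if p e = v then y e (g * ((x (lab e))⁻¹)⁻¹ * (x (lab e))⁻¹ * (x (p e))⁻¹) else 0) =
      if p e = v then y e (g * (x v)⁻¹) else 0 := by
    split_ifs with h1
    · subst h1
      rw [inv_inv, mul_inv_cancel_right]
    · rfl
  beta_reduce
  rw [t1, t2, t3, t4]
  ring

/-- **One stage, terminal version.** -/
theorem level_ter (x : V → G) (χ : G →* Multiplicative ℤ)
    (hχ : ∀ v, χ (x v) = Multiplicative.ofAdd 1) (p q lab : E → V) (y : E → G → ℤ)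
    (hfin : {z : E × G | y z.1 z.2 ≠ 0}.Finite) (hy : KerZ x p q lab y)
    {B : Type} [Fintype B] (T : Set E) [Fintype T] (κ : V → Option B)
    (P Q Λ : T → B) (hP : ∀ e : T, κ (p e) = some (P e)) (hQ : ∀ e : T, κ (q e) = some (Q e))
    (hΛ : ∀ e : T, κ (lab e) = some (Λ e)) (hcard : Fintype.card B = Fintype.card T + 1)
    (hu : ∃! S : Set T, Mix Q P Λ S ∧ Spans Q Λ S)
    (hrel : ∀ e, (∀ g, y e g = 0) ∨ x (p e) * x (lab e) = x (lab e) * x (q e))
    (hin : ∀ e, e ∉ T → (∀ g, y e g = 0) ∨ (κ (p e) = κ (lab e) ∧ κ (q e) = κ (lab e))) :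
    ∀ e ∈ T, ∀ g, y e g = 0 := by
  have h := level (fun v => (x v)⁻¹) χ⁻¹ (fun v => by
      rw [MonoidHom.inv_apply, map_inv, inv_inv, hχ]) q p lab
    (fun e g => y e (g * (x (lab e))⁻¹ * (x (p e))⁻¹)) ?_ (ker_rev' x p q lab y hy hrel)
    T κ Q P Λ hQ hP hΛ hcard hu ?_
  · intro e he g
    have h1 := h e he (g * x (p e) * x (lab e))
    beta_reduce at h1
    rwa [mul_inv_cancel_right, mul_inv_cancel_right] at h1
  · refine (hfin.preimage (f := fun z : E × G =>
      (z.1, z.2 * (x (lab z.1))⁻¹ * (x (p z.1))⁻¹)) ?_).subset ?_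
    · rintro ⟨e1, g1⟩ _ ⟨e2, g2⟩ _ h
      simp only [Prod.mk.injEq] at h
      obtain ⟨h1, h3⟩ := h
      subst h1
      simp only [mul_left_inj] at h3
      rw [h3]
    · intro z hz
      exact hz
  · intro e he
    rcases hin e he with h0 | ⟨h1, h2⟩
    · exact Or.inl fun g => h0 _
    · rcases hrel e with h0 | hr
      · exact Or.inl fun g => h0 _
      · refine Or.inr ⟨?_, h2, h1⟩
        rw [← mul_inv_rev, ← mul_inv_rev, hr]

end

end Pool.Agent.U499.TW
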