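import Pool.Agent.U499.TW.SolC

/-!
# Local indicability of a quotient of a locally indicable group, from twisted homomorphisms
-/

set_option autoImplicit false

namespace Pool.Agent.U499.TW

open Pool.Agent.TH625.LOG Pool.Agent.N819.LT Pool.Agent.N819.UD

/-- twisted homomorphisms of `P` over `π` -/
structure Cocy {P G : Type} [Group P] [Group G] (χ : P →* Multiplicative ℤ) (π : P →* G) where
  c : ℤ → P → P
  mul : ∀ b w w', c b (w * w') = c b w * c (b + Multiplicative.toAdd (χ w)) w'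
  pr : ∀ b w, π (c b w) = π w

section

variable {P G : Type} [Group P] [Group G] {χ : P →* Multiplicative ℤ} {π : P →* G}

theorem Cocy.one (C : Cocy χ π) (b : ℤ) : C.c b 1 = 1 := by
  have h := C.mul b 1 1
  rw [mul_one, map_one, toAdd_one, add_zero] at h
  exact (mul_eq_left.1 h.symm)

theorem Cocy.inv (C : Cocy χ π) (b : ℤ) (w : P) :
    C.c b w⁻¹ = (C.c (b - Multiplicative.toAdd (χ w)) w)⁻¹ := by
  have h := C.mul (b - Multiplicative.toAdd (χ w)) w w⁻¹
  rw [mul_inv_cancel, C.one, sub_add_cancel] at h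
  exact (inv_eq_of_mul_eq_one_right h.symm).symm

theorem Cocy.exists_cells (Rels : Set P) (hR : ∀ r ∈ Rels, χ r = 1) (w : P)
    (hw : w ∈ Subgroup.normalClosure Rels) :
    ∀ a : ℤ, ∃ F : Finset (P × ℤ), ∀ C : Cocy χ π, (∀ d ∈ F, d.1 ∈ Rels → C.c d.2 d.1 = 1) →
      C.c a w = 1 := by
  classical
  have hw' : w ∈ Subgroup.closure (Group.conjugatesOfSet Rels) := hw
  induction hw' using Subgroup.closure_induction with
  | mem x hx =>
    intro a
    obtain ⟨r, hr, hx'⟩ := Group.mem_conjugatesOfSet_iff.1 hx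
    obtain ⟨u, rfl⟩ := isConj_iff.1 hx'
    refine ⟨{(r, a + Multiplicative.toAdd (χ u))}, fun C hC => ?_⟩
    have h1 := hC (r, a + Multiplicative.toAdd (χ u)) (Finset.mem_singleton_self _) hr
    simp only at h1
    rw [C.mul, C.mul, h1, mul_one, map_mul, hR r hr, mul_one, ← C.mul, mul_inv_cancel, C.one]
  | one => exact fun a => ⟨∅, fun C _ => C.one a⟩
  | mul x y hx hy ihx ihy =>
    intro a
    obtain ⟨S, hS⟩ := ihx hx a
    obtain ⟨T, hT⟩ := ihy hy (a + Multiplicative.toAdd (χ x))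
    refine ⟨S ∪ T, fun C hC => ?_⟩
    rw [C.mul, hS C fun d hd => hC d (Finset.mem_union_left _ hd),
      hT C fun d hd => hC d (Finset.mem_union_right _ hd), one_mul]
  | inv x hx ihx =>
    intro a
    obtain ⟨S, hS⟩ := ihx hx (a - Multiplicative.toAdd (χ x))
    refine ⟨S, fun C hC => ?_⟩
    rw [C.inv, hS C hC, inv_one]

/-- **Local indicability of the quotient.** -/
theorem locInd_of_cocy (hP : LocInd P) (χ' : G →* Multiplicative ℤ)
    (hπ : Function.Surjective π) (hχ : ∀ w, χ' (π w) = χ w) (Rels : Set P)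
    (hker : ∀ w, π w = 1 → w ∈ Subgroup.normalClosure Rels) (hRels : ∀ r ∈ Rels, π r = 1)
    (hcoc : ∀ F : Finset (P × ℤ), ∃ C : Cocy χ π, ∀ d ∈ F, d.1 ∈ Rels → C.c d.2 d.1 = 1) :
    LocInd G := by
  classical
  refine LocInd.ext locInd_int χ' fun H hH hne hk => ?_
  by_contra hcon
  push Not at hcon
  have hχR : ∀ r ∈ Rels, χ r = 1 := fun r hr => by rw [← hχ, hRels r hr, map_one]
  have : Group.FG H := (Group.fg_iff_subgroup_fg H).2 hH
  obtain ⟨α, hα, f, hf⟩ := Group.fg_iff_exists_freeGroup_hom_surjective_finite.1 this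
  choose lft hlft using hπ
  let Q : FreeGroup α →* P := FreeGroup.lift fun i => lft (f (FreeGroup.of i))
  have hQ : ∀ x, π (Q x) = f x := by
    intro x
    have h : π.comp Q = H.subtype.comp f := by
      ext i
      show π (Q (FreeGroup.of i)) = f (FreeGroup.of i)
      have h2 : Q (FreeGroup.of i) = lft (f (FreeGroup.of i)) := FreeGroup.lift_apply_of
      rw [h2, hlft]
    exact DFunLike.congr_fun h x
  obtain ⟨T, hTK, hT⟩ := exists_finset_hom f.ker
  have hcells : ∀ x ∈ T, ∃ S : Finset (P × ℤ), ∀ C : Cocy χ π,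
      (∀ d ∈ S, d.1 ∈ Rels → C.c d.2 d.1 = 1) → C.c 0 (Q x) = 1 := by
    intro x hx
    refine Cocy.exists_cells Rels hχR (Q x) ?_ 0
    apply hker
    rw [hQ, (MonoidHom.mem_ker).1 (hTK x hx)]
    rfl
  choose! S hS using hcells
  obtain ⟨C, hC⟩ := hcoc (T.biUnion S)
  have hχQ : ∀ x, χ (Q x) = 1 := by
    intro x
    rw [← hχ, hQ]
    exact MonoidHom.mem_ker.1 (hk (f x).2)
  let Θ : FreeGroup α →* P :=
    MonoidHom.mk' (fun x => C.c 0 (Q x)) (by
      intro x y
      show C.c 0 (Q (x * y)) = C.c 0 (Q x) * C.c 0 (Q y)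
      rw [map_mul, C.mul, hχQ, toAdd_one, add_zero])
  have hΘT : ∀ x ∈ T, Θ x = 1 := by
    intro x hx
    exact hS x hx C fun d hd => hC d (Finset.mem_biUnion.2 ⟨x, hx, hd⟩)
  have hfg : Θ.range.FG := by
    have := hα
    have hα' : Group.FG (FreeGroup α) := inferInstance
    exact (Group.fg_iff_subgroup_fg _).1
      (Group.fg_of_surjective Θ.rangeRestrict_surjective)
  have hJ : Θ.range = ⊥ := by
    by_contra hJ
    obtain ⟨ψ, hψ⟩ := hP Θ.range hfg hJ
    obtain ⟨⟨_, y, rfl⟩, hy⟩ := hψ (Multiplicative.ofAdd 1)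
    let φ : FreeGroup α →* Multiplicative ℤ := ψ.comp Θ.rangeRestrict
    have hφ : ∀ x ∈ f.ker, φ x = 1 := by
      apply hT φ
      intro x hx
      show ψ (Θ.rangeRestrict x) = 1
      have h1 : Θ.rangeRestrict x = 1 := Subtype.ext (hΘT x hx)
      rw [h1, map_one]
    let g : H →* Multiplicative ℤ :=
      f.liftOfRightInverse (Function.surjInv hf) (Function.rightInverse_surjInv hf)
        ⟨φ, fun x hx => MonoidHom.mem_ker.2 (hφ x hx)⟩
    have hg : ∀ x, g (f x) = φ x := fun x =>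
      f.liftOfRightInverse_comp_apply (Function.surjInv hf) (Function.rightInverse_surjInv hf) _ x
    have h2 := hcon g (f y)
    rw [hg] at h2
    have h3 : ψ ⟨Θ y, y, rfl⟩ = 1 := h2
    rw [hy] at h3
    have h4 : (1 : ℤ) = 0 := h3
    exact one_ne_zero h4
  apply hne
  rw [Subgroup.eq_bot_iff_forall]
  intro h hh
  obtain ⟨x, hx⟩ := hf ⟨h, hh⟩
  have h1 : Θ x = 1 := by
    have h2 : Θ x ∈ Θ.range := ⟨x, rfl⟩
    rw [hJ] at h2
    exact Subgroup.mem_bot.1 h2
  have h3 : π (Q x) = 1 := by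
    rw [← C.pr 0 (Q x)]
    have h4 : C.c 0 (Q x) = 1 := h1
    rw [h4, map_one]
  rw [hQ, hx] at h3
  exact h3

/-- The classes embed. -/
theorem inj_of_cocy {V : Type} (x : V → P) (hx : ∀ v, χ (x v) = Multiplicative.ofAdd 1)
    (χ' : G →* Multiplicative ℤ) (hχ : ∀ w, χ' (π w) = χ w) (Rels : Set P)
    (hker : ∀ w, π w = 1 → w ∈ Subgroup.normalClosure Rels) (hRels : ∀ r ∈ Rels, π r = 1)
    (W : Set V)
    (hcoc : ∀ F : Finset (P × ℤ), ∃ C : Cocy χ π, (∀ d ∈ F, d.1 ∈ Rels → C.c d.2 d.1 = 1) ∧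
      ∃ τ : ℤ → P, ∀ v ∈ W, ∀ b, C.c b (x v) = τ b * x v * (τ (b + 1))⁻¹)
    (w : P) (hw : w ∈ Subgroup.closure (x '' W)) (h1 : π w = 1) : w = 1 := by
  have hχR : ∀ r ∈ Rels, χ r = 1 := fun r hr => by rw [← hχ, hRels r hr, map_one]
  obtain ⟨F, hF⟩ := Cocy.exists_cells (π := π) Rels hχR w (hker w h1) 0
  obtain ⟨C, hC, τ, hτ⟩ := hcoc F
  have h2 : ∀ w ∈ Subgroup.closure (x '' W), ∀ b,
      C.c b w = τ b * w * (τ (b + Multiplicative.toAdd (χ w)))⁻¹ := by
    intro w hw
    induction hw using Subgroup.closure_induction with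
    | mem y hy =>
      obtain ⟨v, hv, rfl⟩ := hy
      intro b
      rw [hτ v hv, hx]
      rfl
    | one =>
      intro b
      rw [C.one, map_one, toAdd_one, add_zero, mul_one, mul_inv_cancel]
    | mul y z _ _ ihy ihz =>
      intro b
      rw [C.mul, ihy, ihz, map_mul, toAdd_mul, add_assoc]
      group
    | inv y _ ihy =>
      intro b
      rw [C.inv, ihy, sub_add_cancel, map_inv, toAdd_inv, ← sub_eq_add_neg]
      group
  have h3 := hF C hC
  rw [h2 w hw, ← hχ, h1, map_one, toAdd_one, add_zero] at h3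
  have h4 : τ 0 * w * (τ 0)⁻¹ = 1 := h3
  rw [mul_inv_eq_one] at h4
  exact mul_eq_left.1 h4

end

end Pool.Agent.U499.TW
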