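import Pool.Agent.N819.UD.LI
import Mathlib.GroupTheory.Coprod.Basic

/-!
# The equations between the classes, with coefficients in the old group
-/

set_option autoImplicit false

namespace Pool.Agent.U499.TW

open Pool.Agent.TH625.LOG Pool.Agent.N819.LT Pool.Agent.N819.UD Finset

/-- the key step, with coefficients (compare `Pool.Agent.N819.UD.key'`) -/
theorem keyC (hT : S_TREE) {V E : Type} [Fintype V] [Fintype E] [DecidableEq V] [DecidableEq E]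
    {p q lab : E → V} {S : Set E} {a : E → V → ZMod 2}
    (ha : ∀ f e, a f (mp p q S e) + a f (lab e) = if e = f then 1 else 0)
    (hexp : ∀ (v : V → ZMod 2) (x y : V),
      v x + v y = ∑ f, (v (mp p q S f) + v (lab f)) * (a f x + a f y)) (hS : Spans p lab S)
    {F H : Type} [Group F] [Group H] (R : Set E) (u : E → F) (α Φ₁ Φ₂ : F →* H) (η₁ η₂ : V → H)
    (A C D : E → H)
    (h1 : ∀ b ∈ S, (η₁ (lab b))⁻¹ * η₁ (p b) = α (u b))
    (h2 : ∀ b ∈ S, (η₂ (lab b))⁻¹ * η₂ (p b) = α (u b))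
    (g1 : ∀ b ∈ S, b ∈ R → Φ₁ (u b) = η₁ (lab b) * C b * (η₁ (lab b))⁻¹ *
      (η₁ (q b) * D b * (C b)⁻¹ * (η₁ (lab b))⁻¹) * (η₁ (p b) * (A b)⁻¹ * (η₁ (p b))⁻¹))
    (g2 : ∀ b ∈ S, b ∈ R → Φ₂ (u b) = η₂ (lab b) * C b * (η₂ (lab b))⁻¹ *
      (η₂ (q b) * D b * (C b)⁻¹ * (η₂ (lab b))⁻¹) * (η₂ (p b) * (A b)⁻¹ * (η₂ (p b))⁻¹))
    (k1 : ∀ b ∈ S, b ∉ R → Φ₁ (u b) = 1)
    (k2 : ∀ b ∈ S, b ∉ R → Φ₂ (u b) = 1)
    (e : E) (he : e ∉ S)
    (hR : ∀ f, Arc p q lab S a e f → (η₁ (lab f))⁻¹ * η₁ (q f) = (η₂ (lab f))⁻¹ * η₂ (q f))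
    (w : F) (hw : w ∈ Subgroup.closure {x : F | ∃ b ∈ S, a b (p e) + a b (lab e) ≠ 0 ∧ x = u b}) :
    (η₁ (lab e))⁻¹ * Φ₁ w * η₁ (lab e) = (η₂ (lab e))⁻¹ * Φ₂ w * η₂ (lab e) := by
  have hmpS : ∀ e ∈ S, mp p q S e = p e := fun e he => by unfold mp; exact if_pos he
  have hmpN : ∀ e, e ∉ S → mp p q S e = q e := fun e he => by unfold mp; exact if_neg he
  have hw2 : w ∈ ((MulAut.conj (η₁ (lab e))⁻¹).toMonoidHom.comp Φ₁).eqLocus
      ((MulAut.conj (η₂ (lab e))⁻¹).toMonoidHom.comp Φ₂) := by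
    refine (Subgroup.closure_le _).2 ?_ hw
    rintro _ ⟨b, hb, hP, rfl⟩
    show (η₁ (lab e))⁻¹ * Φ₁ (u b) * (η₁ (lab e))⁻¹⁻¹ = (η₂ (lab e))⁻¹ * Φ₂ (u b) * (η₂ (lab e))⁻¹⁻¹
    rw [inv_inv, inv_inv]
    by_cases hbR : b ∈ R
    · rw [g1 b hb hbR, g2 b hb hbR]
      have e1 : (η₁ (lab e))⁻¹ * η₁ (lab b) = (η₂ (lab e))⁻¹ * η₂ (lab b) := by
        refine diag hT ha hexp η₁ η₂ _ _ ?_
        intro f hf
        by_cases hfS : f ∈ S
        · rw [hmpS f hfS, h1 f hfS, h2 f hfS]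
        · exfalso
          apply hf
          rw [same_of ha hS f hfS e b hb hP, z2s]
      have e2 : (η₁ (lab b))⁻¹ * η₁ (q b) = (η₂ (lab b))⁻¹ * η₂ (q b) := by
        refine diag hT ha hexp η₁ η₂ _ _ ?_
        intro f hf
        by_cases hfS : f ∈ S
        · rw [hmpS f hfS, h1 f hfS, h2 f hfS]
        · rw [hmpN f hfS]
          refine hR f ⟨he, hfS, b, hb, hP, ?_⟩
          rwa [add_comm]
      have e3 : (η₁ (lab b))⁻¹ * η₁ (p b) = (η₂ (lab b))⁻¹ * η₂ (p b) := by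
        rw [h1 b hb, h2 b hb]
      calc (η₁ (lab e))⁻¹ * (η₁ (lab b) * C b * (η₁ (lab b))⁻¹ *
            (η₁ (q b) * D b * (C b)⁻¹ * (η₁ (lab b))⁻¹) *
            (η₁ (p b) * (A b)⁻¹ * (η₁ (p b))⁻¹)) * η₁ (lab e)
          = ((η₁ (lab e))⁻¹ * η₁ (lab b)) * C b * ((η₁ (lab b))⁻¹ * η₁ (q b)) * D b * (C b)⁻¹ *
              ((η₁ (lab b))⁻¹ * η₁ (p b)) * (A b)⁻¹ * ((η₁ (lab b))⁻¹ * η₁ (p b))⁻¹ *
              ((η₁ (lab e))⁻¹ * η₁ (lab b))⁻¹ := by group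
        _ = ((η₂ (lab e))⁻¹ * η₂ (lab b)) * C b * ((η₂ (lab b))⁻¹ * η₂ (q b)) * D b * (C b)⁻¹ *
              ((η₂ (lab b))⁻¹ * η₂ (p b)) * (A b)⁻¹ * ((η₂ (lab b))⁻¹ * η₂ (p b))⁻¹ *
              ((η₂ (lab e))⁻¹ * η₂ (lab b))⁻¹ := by rw [e1, e2, e3]
        _ = (η₂ (lab e))⁻¹ * (η₂ (lab b) * C b * (η₂ (lab b))⁻¹ *
            (η₂ (q b) * D b * (C b)⁻¹ * (η₂ (lab b))⁻¹) *
            (η₂ (p b) * (A b)⁻¹ * (η₂ (p b))⁻¹)) * η₂ (lab e) := by group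
    · rw [k1 b hb hbR, k2 b hb hbR]
      group
  have h3 : (η₁ (lab e))⁻¹ * Φ₁ w * (η₁ (lab e))⁻¹⁻¹ = (η₂ (lab e))⁻¹ * Φ₂ w * (η₂ (lab e))⁻¹⁻¹ := hw2
  rwa [inv_inv, inv_inv] at h3

open Monoid.Coprod in
/-- the solution of the equations with coefficients -/
theorem solC (hD : S_DUAL) (hC : S_CYC) (hX : S_EXCH) (hT : S_TREE) (hF : S_FIX) (hPer : S_PER)
    {V E : Type} [Fintype V] [Fintype E] [DecidableEq V] [DecidableEq E] (p q lab : E → V)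
    (hcard : Fintype.card V = Fintype.card E + 1)
    (hu : ∃! S : Set E, Mix p q lab S ∧ Spans p lab S) (r : V) (R : Set E)
    {P₀ G : Type} [Group P₀] [Group G] (A C D : E → P₀) (π : P₀ →* G)
    (hrel : ∀ e ∈ R, π (A e) * π (C e) = π (C e) * π (D e))
    (tw : (V → Monoid.Coprod (FreeGroup E) P₀) → P₀ →* Monoid.Coprod (FreeGroup E) P₀)
    (twA : ∀ θ e, tw θ (A e) = θ (p e) * inr (A e) * (θ (p e))⁻¹)
    (twC : ∀ θ e, tw θ (C e) = θ (lab e) * inr (C e) * (θ (lab e))⁻¹)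
    (twG : ∀ θ (g : Monoid.Coprod (FreeGroup E) P₀ →* G), (∀ j, g (θ j) = 1) →
      ∀ w, g (tw θ w) = g (inr w)) :
    ∃ (θ : V → Monoid.Coprod (FreeGroup E) P₀)
      (Φ : Monoid.Coprod (FreeGroup E) P₀ →* Monoid.Coprod (FreeGroup E) P₀),
      (∀ w, Φ (inr w) = tw θ w) ∧
      (∀ e ∈ R, Φ ((θ (lab e) * inr (C e))⁻¹ * (θ (p e) * inr (A e))) =
        θ (q e) * inr (D e) * (θ (lab e) * inr (C e))⁻¹) ∧
      (∀ j, π (lift 1 (MonoidHom.id P₀) (θ j)) = 1) ∧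
      (∀ w, π (lift 1 (MonoidHom.id P₀) (Φ w)) = π (lift 1 (MonoidHom.id P₀) w)) := by
  classical
  obtain ⟨S, ⟨hM, hS⟩, huniq⟩ := hu
  obtain ⟨a, ha, hexp⟩ := hD V E (mp p q S) lab hcard hM
  have hM' : Conn (mp p q S) lab := hM
  have hmpS : ∀ e ∈ S, mp p q S e = p e := fun e he => by unfold mp; exact if_pos he
  have hmpN : ∀ e, e ∉ S → mp p q S e = q e := fun e he => by
    unfold mp; exact if_neg he
  let u : E → Monoid.Coprod (FreeGroup E) P₀ := fun e => inl (FreeGroup.of e)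
  have hint : ∀ κ : E → Monoid.Coprod (FreeGroup E) P₀,
      ∃ η : V → Monoid.Coprod (FreeGroup E) P₀, η r = 1 ∧
      ∀ e, (η (lab e))⁻¹ * η (mp p q S e) = if e ∈ S then u e else κ e :=
    fun κ => exists_integral (mp p q S) lab hM' hcard r _
  choose η hη1 hη using hint
  have hηS : ∀ κ, ∀ b ∈ S, (η κ (lab b))⁻¹ * η κ (p b) = u b := by
    intro κ b hb
    have h := hη κ b
    rwa [hmpS b hb, if_pos hb] at h
  have hηN : ∀ κ, ∀ f, f ∉ S → (η κ (lab f))⁻¹ * η κ (q f) = κ f := by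
    intro κ b hb
    have h := hη κ b
    rwa [hmpN b hb, if_neg hb] at h
  let Z : (E → Monoid.Coprod (FreeGroup E) P₀) → E → Monoid.Coprod (FreeGroup E) P₀ := fun κ b =>
    η κ (lab b) * inr (C b) * (η κ (lab b))⁻¹ *
      (η κ (q b) * inr (D b) * (inr (C b))⁻¹ * (η κ (lab b))⁻¹) *
      (η κ (p b) * (inr (A b))⁻¹ * (η κ (p b))⁻¹)
  let Φ : (E → Monoid.Coprod (FreeGroup E) P₀) →
      (Monoid.Coprod (FreeGroup E) P₀ →* Monoid.Coprod (FreeGroup E) P₀) :=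
    fun κ => lift (FreeGroup.lift fun b : E => if b ∈ S ∧ b ∈ R then Z κ b else 1) (tw (η κ))
  have hΦu : ∀ κ b, Φ κ (u b) = if b ∈ S ∧ b ∈ R then Z κ b else 1 := by
    intro κ b
    show lift (FreeGroup.lift fun b : E => if b ∈ S ∧ b ∈ R then Z κ b else 1) (tw (η κ))
      (inl (FreeGroup.of b)) = _
    rw [lift_apply_inl, FreeGroup.lift_apply_of]
  have hΦr : ∀ κ w, Φ κ (inr w) = tw (η κ) w := by
    intro κ w
    exact lift_apply_inr _ _ _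
  have hΦ : ∀ κ, ∀ b ∈ S, b ∈ R → Φ κ (u b) = Z κ b := fun κ b hb hbR =>
    (hΦu κ b).trans (if_pos ⟨hb, hbR⟩)
  have hΦ' : ∀ κ, ∀ b ∈ S, b ∉ R → Φ κ (u b) = 1 := fun κ b hb hbR =>
    (hΦu κ b).trans (if_neg fun h => hbR h.2)
  have hw : ∀ e κ, (η κ (lab e))⁻¹ * η κ (p e) ∈ Subgroup.closure
      {x : Monoid.Coprod (FreeGroup E) P₀ | ∃ b ∈ S, a b (p e) + a b (lab e) ≠ 0 ∧ x = u b} := by
    intro e κ
    refine (Subgroup.closure_mono ?_) (hT V E (mp p q S) lab a ha hexp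
      (Monoid.Coprod (FreeGroup E) P₀) (η κ) (lab e) (p e))
    rintro _ ⟨f, hf, rfl⟩
    by_cases hfS : f ∈ S
    · refine ⟨f, hfS, ?_, ?_⟩
      · rwa [add_comm]
      · rw [hmpS f hfS, hηS κ f hfS]
    · exfalso
      apply hf
      rw [const_of ha hS f hfS e, z2s]
  have hsame : ∀ e κ κ', (η κ (lab e))⁻¹ * η κ (p e) =
      (η κ' (lab e))⁻¹ * η κ' (p e) := by
    intro e κ κ'
    refine diag hT ha hexp _ _ _ _ ?_
    intro f hf
    by_cases hfS : f ∈ S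
    · rw [hmpS f hfS, hηS κ f hfS, hηS κ' f hfS]
    · exfalso
      apply hf
      rw [const_of ha hS f hfS e, z2s]
  have hac : ∀ A : Set E, A.Nonempty → ∃ e ∈ A, ∀ f ∈ A, ¬ Arc p q lab S a e f := by
    intro A hA
    by_contra hcon
    push Not at hcon
    obtain ⟨B, hB, -, hB2⟩ := hPer E (Arc p q lab S a) A hA hcon
    exact no_pred p q lab S a hC hX hcard hS huniq ha hexp B hB hB2
  let T : (E → Monoid.Coprod (FreeGroup E) P₀) → E → Monoid.Coprod (FreeGroup E) P₀ := fun κ e =>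
    if e ∉ S ∧ e ∈ R then
      (inr (C e))⁻¹ * ((η κ (lab e))⁻¹ * Φ κ ((η κ (lab e))⁻¹ * η κ (p e)) * η κ (lab e)) *
        ((η κ (lab e))⁻¹ * η κ (p e)) * inr (A e) * ((η κ (lab e))⁻¹ * η κ (p e))⁻¹ *
        inr (C e) * (inr (D e))⁻¹ else 1
  have hT2 : ∀ κ e, e ∉ S → e ∈ R → T κ e =
      (inr (C e))⁻¹ * ((η κ (lab e))⁻¹ * Φ κ ((η κ (lab e))⁻¹ * η κ (p e)) * η κ (lab e)) *
        ((η κ (lab e))⁻¹ * η κ (p e)) * inr (A e) * ((η κ (lab e))⁻¹ * η κ (p e))⁻¹ *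
        inr (C e) * (inr (D e))⁻¹ :=
    fun κ e he heR => if_pos ⟨he, heR⟩
  have hT3 : ∀ κ e, ¬ (e ∉ S ∧ e ∈ R) → T κ e = 1 :=
    fun κ e h => if_neg h
  obtain ⟨κ, hκ⟩ := hF E (Monoid.Coprod (FreeGroup E) P₀) (Arc p q lab S a) T hac (by
    intro e κ κ' h
    by_cases he : e ∉ S ∧ e ∈ R
    · rw [hT2 κ e he.1 he.2, hT2 κ' e he.1 he.2, hsame e κ' κ]
      have hk := keyC hT ha hexp hS R u (MonoidHom.id (Monoid.Coprod (FreeGroup E) P₀)) (Φ κ)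
        (Φ κ') (η κ) (η κ') (fun b => inr (A b)) (fun b => inr (C b)) (fun b => inr (D b))
        (hηS κ) (hηS κ') (hΦ κ) (hΦ κ') (hΦ' κ) (hΦ' κ') e he.1
          (fun f hf => by rw [hηN κ f hf.2.1, hηN κ' f hf.2.1, h f hf]) _ (hw e κ)
      rw [hk]
    · rw [hT3 κ e he, hT3 κ' e he])
  have hκe : ∀ e, e ∉ S → e ∈ R →
      (inr (C e))⁻¹ * ((η κ (lab e))⁻¹ * Φ κ ((η κ (lab e))⁻¹ * η κ (p e)) * η κ (lab e)) *
        ((η κ (lab e))⁻¹ * η κ (p e)) * inr (A e) * ((η κ (lab e))⁻¹ * η κ (p e))⁻¹ *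
        inr (C e) * (inr (D e))⁻¹ = (η κ (lab e))⁻¹ * η κ (q e) := by
    intro e he heR
    rw [← hT2 κ e he heR, hκ, hηN κ e he]
  -- the value of `Φ` at the left hand side of an equation
  have hval : ∀ e, Φ κ ((η κ (lab e) * inr (C e))⁻¹ * (η κ (p e) * inr (A e))) =
      (η κ (lab e) * (inr (C e))⁻¹ * (η κ (lab e))⁻¹) * Φ κ ((η κ (lab e))⁻¹ * η κ (p e)) *
        (η κ (p e) * inr (A e) * (η κ (p e))⁻¹) := by
    intro e
    have e1 : (η κ (lab e) * inr (C e))⁻¹ * (η κ (p e) * inr (A e)) =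
        (inr (C e))⁻¹ * ((η κ (lab e))⁻¹ * η κ (p e)) * inr (A e) := by group
    rw [e1, map_mul, map_mul, map_inv, hΦr, hΦr, twC, twA]
    group
  have hE : ∀ e ∈ R, Φ κ ((η κ (lab e) * inr (C e))⁻¹ * (η κ (p e) * inr (A e))) =
      η κ (q e) * inr (D e) * (η κ (lab e) * inr (C e))⁻¹ := by
    intro e heR
    rw [hval]
    by_cases he : e ∈ S
    · rw [hηS κ e he, hΦ κ e he heR]
      show (η κ (lab e) * (inr (C e))⁻¹ * (η κ (lab e))⁻¹) * (η κ (lab e) * inr (C e) *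
        (η κ (lab e))⁻¹ * (η κ (q e) * inr (D e) * (inr (C e))⁻¹ * (η κ (lab e))⁻¹) *
        (η κ (p e) * (inr (A e))⁻¹ * (η κ (p e))⁻¹)) * (η κ (p e) * inr (A e) * (η κ (p e))⁻¹) = _
      group
    · have h := hκe e he heR
      have h2 : Φ κ ((η κ (lab e))⁻¹ * η κ (p e)) = η κ (lab e) * inr (C e) *
          ((η κ (lab e))⁻¹ * η κ (q e)) * inr (D e) * (inr (C e))⁻¹ *
          ((η κ (lab e))⁻¹ * η κ (p e)) * (inr (A e))⁻¹ * ((η κ (lab e))⁻¹ * η κ (p e))⁻¹ *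
          (η κ (lab e))⁻¹ := by
        rw [← h]
        group
      rw [h2]
      group
  obtain ⟨Ψ, hΨdef⟩ : ∃ Ψ : Monoid.Coprod (FreeGroup E) P₀ →* G,
      ∀ w, Ψ w = π (lift 1 (MonoidHom.id P₀) w) := ⟨π.comp (lift 1 (MonoidHom.id P₀)), fun _ => rfl⟩
  have hΨu : ∀ b, Ψ (u b) = 1 := by
    intro b
    rw [hΨdef]
    show π (lift 1 (MonoidHom.id P₀) (inl (FreeGroup.of b))) = 1
    rw [lift_apply_inl, MonoidHom.one_apply, map_one]
  have hΨr : ∀ w, Ψ (inr w) = π w := by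
    intro w
    rw [hΨdef, lift_apply_inr]
    rfl
  have h1 : ∀ b ∈ S, (Ψ (η κ (lab b)))⁻¹ * Ψ (η κ (p b)) = Ψ (u b) := by
    intro b hb
    rw [← map_inv, ← map_mul, hηS κ b hb]
  have hone : ∀ b ∈ R, (1 : G) * π (C b) * 1⁻¹ * (1 * π (D b) * (π (C b))⁻¹ * 1⁻¹) *
      (1 * (π (A b))⁻¹ * 1⁻¹) = 1 := by
    intro b hb
    have h := hrel b hb
    have h' : π (D b) = (π (C b))⁻¹ * (π (A b) * π (C b)) := by
      rw [h, inv_mul_cancel_left]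
    rw [h']
    group
  have hΨΦ : ∀ b, b ∈ S → b ∈ R → Ψ (Φ κ (u b)) = Ψ (η κ (lab b)) * π (C b) *
      (Ψ (η κ (lab b)))⁻¹ * (Ψ (η κ (q b)) * π (D b) * (π (C b))⁻¹ * (Ψ (η κ (lab b)))⁻¹) *
      (Ψ (η κ (p b)) * (π (A b))⁻¹ * (Ψ (η κ (p b)))⁻¹) := by
    intro b hb hbR
    rw [hΦ κ b hb hbR]
    show Ψ (η κ (lab b) * inr (C b) * (η κ (lab b))⁻¹ *
      (η κ (q b) * inr (D b) * (inr (C b))⁻¹ * (η κ (lab b))⁻¹) *
      (η κ (p b) * (inr (A b))⁻¹ * (η κ (p b))⁻¹)) = _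
    simp only [map_mul, map_inv, hΨr]
  have hZ : ∀ e, e ∉ S → (Ψ (η κ (lab e)))⁻¹ * Ψ (η κ (q e)) = 1 := by
    by_contra hcon
    push Not at hcon
    obtain ⟨e0, he0, hne0⟩ := hcon
    obtain ⟨e, ⟨he, hne⟩, hmax⟩ := hac {e | e ∉ S ∧ (Ψ (η κ (lab e)))⁻¹ * Ψ (η κ (q e)) ≠ 1}
      ⟨e0, he0, hne0⟩
    apply hne
    by_cases heR : e ∈ R
    · have hk := keyC hT ha hexp hS R u Ψ (Ψ.comp (Φ κ)) Ψ (fun v => Ψ (η κ v)) (fun _ => 1)
        (fun b => π (A b)) (fun b => π (C b)) (fun b => π (D b)) h1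
        (fun b hb => by rw [hΨu]; group) hΨΦ (fun b hb hbR => by rw [hΨu]; exact (hone b hbR).symm)
        (fun b hb hbR => by
          show Ψ (Φ κ (u b)) = 1
          rw [hΦ' κ b hb hbR, map_one]) (fun b _ _ => hΨu b) e he
        (fun f hf => by
          by_contra hc
          exact hmax f ⟨hf.2.1, fun h0 => hc (by rw [h0]; group)⟩ hf) _ (hw e κ)
      have hk2 : Ψ ((η κ (lab e))⁻¹ * η κ (p e)) = 1 := by
        rw [map_mul, map_inv]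
        have h3 := diag hT ha hexp (fun v => Ψ (η κ v)) (fun _ => 1) (lab e) (p e) (by
          intro f hf
          by_cases hfS : f ∈ S
          · rw [hmpS f hfS, h1 f hfS, hΨu]
            group
          · exfalso
            apply hf
            rw [const_of ha hS f hfS e, z2s])
        rw [h3]
        group
      have hk3 : (Ψ (η κ (lab e)))⁻¹ * Ψ (Φ κ ((η κ (lab e))⁻¹ * η κ (p e))) *
          Ψ (η κ (lab e)) = 1 := by
        have hk' : (Ψ (η κ (lab e)))⁻¹ * Ψ (Φ κ ((η κ (lab e))⁻¹ * η κ (p e))) *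
          Ψ (η κ (lab e)) = 1⁻¹ * Ψ ((η κ (lab e))⁻¹ * η κ (p e)) * 1 := hk
        rw [hk', hk2]
        group
      have h := congrArg Ψ (hκe e he heR)
      rw [map_mul Ψ (η κ (lab e))⁻¹ (η κ (q e)), map_inv Ψ (η κ (lab e))] at h
      rw [← h]
      have h4 : Ψ ((inr (C e))⁻¹ * ((η κ (lab e))⁻¹ * Φ κ ((η κ (lab e))⁻¹ * η κ (p e)) *
          η κ (lab e)) * ((η κ (lab e))⁻¹ * η κ (p e)) * inr (A e) *
          ((η κ (lab e))⁻¹ * η κ (p e))⁻¹ * inr (C e) * (inr (D e))⁻¹) =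
          (π (C e))⁻¹ * ((Ψ (η κ (lab e)))⁻¹ * Ψ (Φ κ ((η κ (lab e))⁻¹ * η κ (p e))) *
          Ψ (η κ (lab e))) * Ψ ((η κ (lab e))⁻¹ * η κ (p e)) * π (A e) *
          (Ψ ((η κ (lab e))⁻¹ * η κ (p e)))⁻¹ * π (C e) * (π (D e))⁻¹ := by
        rw [map_mul, map_mul, map_mul, map_mul, map_mul, map_mul, map_mul, map_mul, map_inv,
          map_inv, map_inv, map_inv, hΨr, hΨr, hΨr]
      rw [h4, hk3, hk2, mul_one, mul_one, inv_one, mul_one, mul_assoc (π (C e))⁻¹, hrel e heR]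
      group
    · rw [← map_inv, ← map_mul, hηN κ e he]
      have h5 : κ e = 1 := by
        rw [← hT3 κ e (fun h => heR h.2), hκ]
      rw [h5, map_one]
  have hy2 : ∀ v, Ψ (η κ v) = 1 := by
    intro v
    have h3 := diag hT ha hexp (fun v => Ψ (η κ v)) (fun _ => (1 : G)) r v (by
      intro f _
      by_cases hfS : f ∈ S
      · rw [hmpS f hfS, h1 f hfS, hΨu]
        group
      · rw [hmpN f hfS, hZ f hfS]
        group)
    simp only [hη1 κ, map_one, inv_one, one_mul] at h3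
    exact h3
  have hy3 : ∀ w, Ψ (Φ κ w) = Ψ w := by
    intro w
    have h3 : Ψ.comp (Φ κ) = Ψ := by
      apply Monoid.Coprod.hom_ext
      · apply FreeGroup.ext_hom
        intro b
        show Ψ (Φ κ (u b)) = Ψ (u b)
        by_cases hb : b ∈ S
        · by_cases hbR : b ∈ R
          · rw [hΨΦ b hb hbR, hy2, hy2, hy2, hΨu]
            exact hone b hbR
          · rw [hΦ' κ b hb hbR, map_one, hΨu]
        · rw [hΦu, if_neg (fun h => hb h.1), map_one, hΨu]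
      · ext w
        show Ψ (Φ κ (inr w)) = Ψ (inr w)
        rw [hΦr]
        exact twG (η κ) Ψ hy2 w
    exact DFunLike.congr_fun h3 w
  refine ⟨η κ, Φ κ, hΦr κ, hE, fun j => ?_, fun w => ?_⟩
  · rw [← hΨdef]
    exact hy2 j
  · rw [← hΨdef, ← hΨdef]
    exact hy3 w

end Pool.Agent.U499.TW
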