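import Pool.Agent.U499.TW.Level

/-!
# Towers of decompositions of labelled oriented graphs: the 2-cycles of the universal covering
-/

set_option autoImplicit false

namespace Pool.Agent.U499.TW

open Pool.Agent.TH625.LOG Pool.Agent.N819.LT Pool.Agent.N819.UD Finset

/-- The edges `T` are added to the edges `S` in one stage: some of the vertices are divided into
finitely many classes `b : B` (`κ v = some b`; `κ v = none` for the other vertices), no edge of `S`
joins different classes (or a class and the other vertices), the ends and the labels of the edges of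
`T` lie in the classes, and the quotient graph with the vertices `B` and the edges `T` is a labelled
oriented graph with one vertex more than edges which has exactly one spanning decomposition, in the
initial or in the terminal version. -/
def Stage {V E : Type} (L : LOG V E) (S T : Set E) : Prop :=
  ∃ (B : Type) (κ : V → Option B) (P Q Λ : T → B), Finite B ∧
    (∀ e ∈ S, κ (L.ini e) = κ (L.lab e) ∧ κ (L.ter e) = κ (L.lab e)) ∧
    (∀ e : T, κ (L.ini e) = some (P e) ∧ κ (L.ter e) = some (Q e) ∧ κ (L.lab e) = some (Λ e)) ∧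
    Nat.card B = Nat.card T + 1 ∧
    ((∃! R : Set T, Mix P Q Λ R ∧ Spans P Λ R) ∨ ∃! R : Set T, Mix Q P Λ R ∧ Spans Q Λ R)

/-- The set `S` of edges is reached from the set `S₀` in finitely many stages. -/
inductive Tower {V E : Type} (L : LOG V E) (S₀ : Set E) : Set E → Prop
  | base : Tower L S₀ S₀
  | stage (S T : Set E) : Tower L S₀ S → Stage L S T → Tower L S₀ (S ∪ T)

variable {V E : Type}

theorem bd_int [Fintype E] [DecidableEq V] (L : LOG V E)
    (c : (E × L.G) →₀ ℤ) (v : V) (g : L.G) :
    L.bdry c (v, g) =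
      ∑ e, ((if L.ini e = v then c (e, g) else 0) +
        (if L.lab e = v then c (e, g * (L.gen (L.ini e))⁻¹) else 0) -
        (if L.lab e = v then c (e, g) else 0) -
        (if L.ter e = v then c (e, g * (L.gen (L.lab e))⁻¹) else 0)) := by
  classical
  induction c using Finsupp.induction_linear with
  | zero => simp [Pool.Agent.N249.UD_MOD2.bdry_zero]
  | add c d hc hd =>
    rw [Pool.Agent.N249.UD_MOD2.bdry_add, Finsupp.add_apply, hc, hd, ← Finset.sum_add_distrib]
    refine Finset.sum_congr rfl fun e _ => ?_
    simp only [Finsupp.add_apply]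
    split_ifs <;> ring
  | single d n =>
    obtain ⟨e0, g0⟩ := d
    have hb : L.bdry (Finsupp.single (e0, g0) n) =
        ∑ k : Fin 4, Finsupp.single (L.side (e0, g0) k) (sgn k * n) := by
      unfold LOG.bdry
      refine Finsupp.sum_single_index ?_
      refine Finset.sum_eq_zero fun k _ => ?_
      rw [mul_zero, Finsupp.single_zero]
    have s0 : (Finsupp.single (L.side (e0, g0) 0) (sgn 0 * n)) (v, g) =
        if L.ini e0 = v ∧ g0 = g then n else 0 := by
      have h1 : L.side (e0, g0) 0 = (L.ini e0, g0) := by
        change (L.ini e0, g0 * 1) = _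
        rw [mul_one]
      have h2 : sgn 0 = 1 := rfl
      rw [h1, h2, one_mul, Finsupp.single_apply]
      simp only [Prod.mk.injEq]
    have s1 : (Finsupp.single (L.side (e0, g0) 1) (sgn 1 * n)) (v, g) =
        if L.lab e0 = v ∧ g0 * L.gen (L.ini e0) = g then n else 0 := by
      have h1 : L.side (e0, g0) 1 = (L.lab e0, g0 * L.gen (L.ini e0)) := rfl
      have h2 : sgn 1 = 1 := rfl
      rw [h1, h2, one_mul, Finsupp.single_apply]
      simp only [Prod.mk.injEq]
    have s2 : (Finsupp.single (L.side (e0, g0) 2) (sgn 2 * n)) (v, g) =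
        if L.lab e0 = v ∧ g0 = g then -n else 0 := by
      have h1 : L.side (e0, g0) 2 = (L.lab e0, g0) := by
        change (L.lab e0, g0 * 1) = _
        rw [mul_one]
      have h2 : sgn 2 = -1 := rfl
      rw [h1, h2, neg_one_mul, Finsupp.single_apply]
      simp only [Prod.mk.injEq]
    have s3 : (Finsupp.single (L.side (e0, g0) 3) (sgn 3 * n)) (v, g) =
        if L.ter e0 = v ∧ g0 * L.gen (L.lab e0) = g then -n else 0 := by
      have h1 : L.side (e0, g0) 3 = (L.ter e0, g0 * L.gen (L.lab e0)) := rfl
      have h2 : sgn 3 = -1 := rfl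
      rw [h1, h2, neg_one_mul, Finsupp.single_apply]
      simp only [Prod.mk.injEq]
    have key : ∀ (p q : Prop) [Decidable p] [Decidable q] (m : ℤ),
        (if p ∧ q then m else 0 : ℤ) = if p then (if q then m else 0 : ℤ) else 0 := by
      intro p q _ _ m
      by_cases hp : p <;> by_cases hq : q <;> simp [hp, hq]
    have key2 : ∀ (p q : Prop) [Decidable p] [Decidable q] (m : ℤ),
        (if p ∧ q then -m else 0 : ℤ) = -(if p then (if q then m else 0 : ℤ) else 0) := by
      intro p q _ _ m
      by_cases hp : p <;> by_cases hq : q <;> simp [hp, hq]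
    have c0 : ∀ g' : L.G, (Finsupp.single (e0, g0) n) (e0, g') = if g0 = g' then n else 0 := by
      intro g'
      rw [Finsupp.single_apply]
      simp only [Prod.mk.injEq, true_and]
    have c1 : ∀ x : L.G, (Finsupp.single (e0, g0) n) (e0, g * x⁻¹) =
        if g0 * x = g then n else 0 := by
      intro x
      rw [c0]
      simp only [eq_mul_inv_iff_mul_eq]
    rw [hb, Finset.sum_eq_single e0]
    · rw [Finsupp.finsetSum_apply, Fin.sum_univ_four, s0, s1, s2, s3, c0, c1, c1,
        key, key, key2, key2]
      ring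
    · intro e _ he
      have h0 : ∀ g' : L.G, (Finsupp.single (e0, g0) n) (e, g') = 0 := by
        intro g'
        rw [Finsupp.single_apply, if_neg]
        intro h
        exact he (congrArg Prod.fst h).symm
      rw [h0, h0, h0]
      simp
    · intro h
      exact absurd (Finset.mem_univ _) h

open Classical in
/-- extension of a chain by zero -/
noncomputable def extZ {G : Type} (S : Set E) (y : S → G → ℤ) (e : E) (g : G) : ℤ :=
  if h : e ∈ S then y ⟨e, h⟩ g else 0

theorem extZ_mem {G : Type} (S : Set E) (y : S → G → ℤ) (e : S) (g : G) :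
    extZ S y e g = y e g := by
  unfold extZ
  rw [dif_pos e.2]

theorem extZ_not {G : Type} (S : Set E) (y : S → G → ℤ) (e : E) (he : e ∉ S) (g : G) :
    extZ S y e g = 0 := by
  unfold extZ
  rw [dif_neg he]

/-- the chains of all groups -/
theorem tower_chain [Fintype V] [Fintype E] [DecidableEq V] (L : LOG V E) {G : Type} [Group G]
    (x : V → G) (χ : G →* Multiplicative ℤ) (hχ : ∀ v, χ (x v) = Multiplicative.ofAdd 1)
    {S₀ S : Set E} (hT : Tower L S₀ S) : ∀ y : E → G → ℤ,
    {z : E × G | y z.1 z.2 ≠ 0}.Finite → KerZ x L.ini L.ter L.lab y →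
    (∀ e, (∀ g, y e g = 0) ∨ x (L.ini e) * x (L.lab e) = x (L.lab e) * x (L.ter e)) →
    (∀ e, e ∉ S → ∀ g, y e g = 0) → ∀ e, e ∉ S₀ → ∀ g, y e g = 0 := by
  classical
  induction hT with
  | base => intro y _ _ _ h; exact h
  | stage S T hS hst ih =>
    intro y hfin hy hrel hsupp
    obtain ⟨B, κ, P, Q, Λ, hB, h1, h2, hcard, hu⟩ := hst
    haveI := Fintype.ofFinite B
    have hcard' : Fintype.card B = Fintype.card T + 1 := by
      rw [← Nat.card_eq_fintype_card, ← Nat.card_eq_fintype_card]
      exact hcard
    have hzero : ∀ e ∈ T, ∀ g, y e g = 0 := by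
      rcases hu with hu | hu
      · refine level x χ hχ L.ini L.ter L.lab y hfin hy T κ P Q Λ (fun e => (h2 e).1)
          (fun e => (h2 e).2.1) (fun e => (h2 e).2.2) hcard' hu ?_
        intro e he
        by_cases heS : e ∈ S
        · rcases hrel e with h0 | hr
          · exact Or.inl h0
          · exact Or.inr ⟨hr, h1 e heS⟩
        · exact Or.inl (hsupp e fun h => h.elim heS he)
      · refine level_ter x χ hχ L.ini L.ter L.lab y hfin hy T κ P Q Λ (fun e => (h2 e).1)
          (fun e => (h2 e).2.1) (fun e => (h2 e).2.2) hcard' hu hrel ?_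
        intro e he
        by_cases heS : e ∈ S
        · exact Or.inr (h1 e heS)
        · exact Or.inl (hsupp e fun h => h.elim heS he)
    refine ih y hfin hy hrel ?_
    intro e he
    by_cases heT : e ∈ T
    · exact hzero e heT
    · exact hsupp e fun h => h.elim he heT

/-- **The 2-cycles of the universal covering are carried by the 2-cells of `S₀`.** -/
theorem tower_support [Fintype V] [Fintype E] [DecidableEq V] (L : LOG V E)
    {S₀ S : Set E} (hT : Tower L S₀ S) (S' : Set E) (hS' : S' ⊆ S)
    (c : (S' × (sub L S').G) →₀ ℤ) (hc : (sub L S').bdry c = 0) :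
    ∀ d, c d ≠ 0 → (d.1 : E) ∈ S₀ := by
  classical
  intro d hd
  by_contra hd0
  have hmain := tower_chain L (sub L S').gen (chi (sub L S')) (chi_gen _) hT
    (extZ S' fun e g => c (e, g)) ?_ ?_ ?_ ?_ d.1 hd0 d.2
  · rw [extZ_mem] at hmain
    exact hd hmain
  · refine ((c.support.finite_toSet).image fun z : S' × (sub L S').G =>
      ((z.1 : E), z.2)).subset ?_
    rintro ⟨e, g⟩ hz
    by_cases he : e ∈ S'
    · refine ⟨(⟨e, he⟩, g), ?_, rfl⟩
      rw [Finset.mem_coe, Finsupp.mem_support_iff]
      have := extZ_mem S' (fun e g => c (e, g)) ⟨e, he⟩ g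
      intro h0
      exact hz (this.trans h0)
    · exact absurd (extZ_not S' _ e he g) hz
  · intro v g
    have h1 := bd_int (sub L S') c v g
    rw [hc, Finsupp.coe_zero, Pi.zero_apply] at h1
    refine Eq.trans (Eq.symm ?_) h1.symm
    refine Fintype.sum_of_injective (fun e : S' => (e : E)) Subtype.val_injective _ _ ?_ ?_
    · intro e he
      have he' : e ∉ S' := fun h => he ⟨⟨e, h⟩, rfl⟩
      simp only [extZ_not S' _ e he', ite_self, add_zero, sub_zero]
    · intro e
      simp only [extZ_mem]
      rfl
  · intro e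
    by_cases he : e ∈ S'
    · exact Or.inr (Pool.Agent.N819.UD.gen_rel (sub L S') ⟨e, he⟩)
    · exact Or.inl (extZ_not S' _ e he)
  · intro e he g
    exact extZ_not S' _ e (fun h => he (hS' h)) g

/-- asphericity -/
theorem tower_aspherical [Fintype V] [Fintype E] [DecidableEq V] (L : LOG V E)
    {S : Set E} (hT : Tower L ∅ S) (S' : Set E) (hS' : S' ⊆ S)
    (c : (S' × (sub L S').G) →₀ ℤ) (hc : (sub L S').bdry c = 0) : c = 0 := by
  ext d
  by_contra hd
  exact tower_support L hT S' hS' c hc d hd

/-- A stage whose quotient has a tree as initial or as terminal graph. -/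
theorem stage_of_tree [Finite E] (L : LOG V E) (S T : Set E) (B : Type) (κ : V → Option B)
    (P Q Λ : T → B) (hB : Finite B)
    (h1 : ∀ e ∈ S, κ (L.ini e) = κ (L.lab e) ∧ κ (L.ter e) = κ (L.lab e))
    (h2 : ∀ e : T, κ (L.ini e) = some (P e) ∧ κ (L.ter e) = some (Q e) ∧ κ (L.lab e) = some (Λ e))
    (hcard : Nat.card B = Nat.card T + 1) (h : Conn P Λ ∨ Conn Q Λ) : Stage L S T := by
  classical
  haveI := Fintype.ofFinite B
  haveI := Fintype.ofFinite E
  have hcard' : Fintype.card B = Fintype.card T + 1 := by
    rw [← Nat.card_eq_fintype_card, ← Nat.card_eq_fintype_card]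
    exact hcard
  exact ⟨B, κ, P, Q, Λ, hB, h1, h2, hcard, h.imp (fun h => unique_of_tree P Q Λ hcard' h)
    (fun h => unique_of_tree Q P Λ hcard' h)⟩

end Pool.Agent.U499.TW
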