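import Pool.Agent.U499.TW.RCoc
import Pool.Agent.U499.TW.Tower

/-!
# The twisted homomorphisms of one stage
-/

set_option autoImplicit false

namespace Pool.Agent.U499.TW

open Pool.Agent.TH625.LOG Pool.Agent.N819.LT Pool.Agent.N819.UD Finset

/-- the shift of the functions on the integers -/
def shiftZ (P : Type) [Group P] : Multiplicative ℤ →* MulAut (ℤ → P) where
  toFun n :=
    { toFun := fun f b => f (b + Multiplicative.toAdd n)
      invFun := fun f b => f (b - Multiplicative.toAdd n)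
      left_inv := fun f => by
        funext b
        show f (b - Multiplicative.toAdd n + Multiplicative.toAdd n) = f b
        rw [sub_add_cancel]
      right_inv := fun f => by
        funext b
        show f (b + Multiplicative.toAdd n - Multiplicative.toAdd n) = f b
        rw [add_sub_cancel_right]
      map_mul' := fun _ _ => rfl }
  map_one' := by
    ext f b
    show f (b + Multiplicative.toAdd 1) = f b
    rw [toAdd_one, add_zero]
  map_mul' m n := by
    ext f b
    show f (b + Multiplicative.toAdd (m * n)) =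
      f (b + Multiplicative.toAdd m + Multiplicative.toAdd n)
    rw [toAdd_mul, add_assoc]

/-- the products of the iterates -/
def Th {F : Type} [Group F] (φ : F →* F) (θ : F) : ℕ → F
  | 0 => 1
  | j + 1 => Pool.Agent.N136.UE.it φ j θ * Th φ θ j

theorem it_conj {F : Type} [Group F] (φ : F →* F) (θ x : F) (h : φ x = θ * x * θ⁻¹) (j : ℕ) :
    Pool.Agent.N136.UE.it φ j x = Th φ θ j * x * (Th φ θ j)⁻¹ := by
  induction j with
  | zero =>
    show x = 1 * x * 1⁻¹
    group
  | succ j ih =>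
    rw [Pool.Agent.N136.UE.it_succ, h, map_mul, map_mul, map_inv, ih]
    show _ = (Pool.Agent.N136.UE.it φ j θ * Th φ θ j) * x *
      (Pool.Agent.N136.UE.it φ j θ * Th φ θ j)⁻¹
    group

theorem Th_step {F : Type} [Group F] (φ : F →* F) (θ x : F) (h : φ x = θ * x * θ⁻¹) (j : ℕ) :
    Th φ θ (j + 1) * x * (Th φ θ j)⁻¹ = Pool.Agent.N136.UE.it φ j (θ * x) := by
  rw [map_mul, it_conj φ θ x h]
  show (Pool.Agent.N136.UE.it φ j θ * Th φ θ j) * x * (Th φ θ j)⁻¹ = _
  group

theorem tw_aux {G : Type} [Group G] (t a c d : G) (h : a * c = c * d) :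
    t * a * t⁻¹ * (t * c * t⁻¹) * (t * d * t⁻¹)⁻¹ * (t * c * t⁻¹)⁻¹ = 1 := by
  have h6 : a = c * d * c⁻¹ := by rw [← h, mul_inv_cancel_right]
  rw [h6]
  group

variable {V E : Type}

/-- the homomorphism of the groups when edges are added -/
def addE (L : LOG V E) (R₁ R₂ : Set E) (h : R₁ ⊆ R₂) : (sub L R₁).G →* (sub L R₂).G :=
  PresentedGroup.toGroup (f := (sub L R₂).gen) (by
    rintro _ ⟨e, rfl⟩
    have h1 := Pool.Agent.N819.UD.gen_rel (sub L R₂) ⟨e, h e.2⟩
    have h2 : (sub L R₂).gen (L.ini e) * (sub L R₂).gen (L.lab e) =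
      (sub L R₂).gen (L.lab e) * (sub L R₂).gen (L.ter e) := h1
    show FreeGroup.lift (sub L R₂).gen (FreeGroup.of (L.ini e) * FreeGroup.of (L.lab e) *
      (FreeGroup.of (L.ter e))⁻¹ * (FreeGroup.of (L.lab e))⁻¹) = 1
    simp only [map_mul, map_inv, FreeGroup.lift_apply_of]
    rw [h2]
    group)

theorem addE_gen (L : LOG V E) (R₁ R₂ : Set E) (h : R₁ ⊆ R₂) (v : V) :
    addE L R₁ R₂ h ((sub L R₁).gen v) = (sub L R₂).gen v := PresentedGroup.toGroup.of _

theorem addE_pr (L : LOG V E) (R₁ R₂ : Set E) (h : R₁ ⊆ R₂) (w : FreeGroup V) :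
    addE L R₁ R₂ h ((sub L R₁).pr w) = (sub L R₂).pr w := by
  have h1 : (addE L R₁ R₂ h).comp (sub L R₁).pr = (sub L R₂).pr := by
    apply FreeGroup.ext_hom
    intro v
    exact addE_gen L R₁ R₂ h v
  exact DFunLike.congr_fun h1 w

theorem addE_surj (L : LOG V E) (R₁ R₂ : Set E) (h : R₁ ⊆ R₂) :
    Function.Surjective (addE L R₁ R₂ h) := by
  intro g
  obtain ⟨w, rfl⟩ := PresentedGroup.mk_surjective _ g
  exact ⟨(sub L R₁).pr w, addE_pr L R₁ R₂ h w⟩

theorem addE_chi (L : LOG V E) (R₁ R₂ : Set E) (h : R₁ ⊆ R₂) (w : (sub L R₁).G) :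
    chi (sub L R₂) (addE L R₁ R₂ h w) = chi (sub L R₁) w := by
  have h1 : (chi (sub L R₂)).comp (addE L R₁ R₂ h) = chi (sub L R₁) := by
    apply PresentedGroup.ext
    intro v
    show chi (sub L R₂) (addE L R₁ R₂ h ((sub L R₁).gen v)) = chi (sub L R₁) ((sub L R₁).gen v)
    rw [addE_gen, chi_gen, chi_gen]
  exact DFunLike.congr_fun h1 w

/-- the kernel -/
theorem addE_ker (L : LOG V E) (R₁ R₂ : Set E) (h : R₁ ⊆ R₂) (w : (sub L R₁).G)
    (hw : addE L R₁ R₂ h w = 1) : w ∈ Subgroup.normalClosure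
      {r | ∃ e ∈ R₂, e ∉ R₁ ∧ r = (sub L R₁).pr (L.rel e)} := by
  obtain ⟨z, rfl⟩ := PresentedGroup.mk_surjective _ w
  have h1 : (sub L R₂).pr z = 1 := by
    rw [← addE_pr L R₁ R₂ h]
    exact hw
  have h2 : z ∈ Subgroup.normalClosure (Set.range (sub L R₂).rel) :=
    (PresentedGroup.mk_eq_one_iff).1 h1
  have h3 : Subgroup.normalClosure (Set.range (sub L R₂).rel) ≤
      (Subgroup.normalClosure {r | ∃ e ∈ R₂, e ∉ R₁ ∧ r = (sub L R₁).pr (L.rel e)}).comap
        (sub L R₁).pr := by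
    apply Subgroup.normalClosure_le_normal
    rintro _ ⟨e, rfl⟩
    show (sub L R₁).pr (L.rel e) ∈
      Subgroup.normalClosure {r | ∃ e ∈ R₂, e ∉ R₁ ∧ r = (sub L R₁).pr (L.rel e)}
    by_cases he : (e : E) ∈ R₁
    · have h4 : (sub L R₁).pr (L.rel e) = 1 := mk_rel (sub L R₁) ⟨e, he⟩
      rw [h4]
      exact Subgroup.one_mem _
    · exact Subgroup.subset_normalClosure ⟨e, e.2, he, rfl⟩
  exact h3 h2

theorem addE_rel (L : LOG V E) (R₁ R₂ : Set E) (h : R₁ ⊆ R₂) (e : E) (he : e ∈ R₂) :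
    addE L R₁ R₂ h ((sub L R₁).pr (L.rel e)) = 1 := by
  rw [addE_pr]
  exact mk_rel (sub L R₂) ⟨e, he⟩

open Monoid.Coprod in
/-- the twisted homomorphisms -/
theorem stage_coc (L : LOG V E) (S' T T' : Set E) (hT' : T' ⊆ T)
    {B : Type} [Fintype B] [DecidableEq B] [Fintype T] [DecidableEq T] (κ : V → Option B)
    (P Q Λ : T → B)
    (h1 : ∀ e ∈ S', κ (L.ini e) = κ (L.lab e) ∧ κ (L.ter e) = κ (L.lab e))
    (h2 : ∀ e : T, κ (L.ini e) = some (P e) ∧ κ (L.ter e) = some (Q e) ∧ κ (L.lab e) = some (Λ e))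
    (hcard : Fintype.card B = Fintype.card T + 1)
    (hu : ∃! R : Set T, Mix P Q Λ R ∧ Spans P Λ R) (N : ℤ) :
    ∃ C : Cocy (chi (sub L S')) (addE L S' (S' ∪ T') Set.subset_union_left),
      (∀ e ∈ T', ∀ b : ℤ, b + 2 ≤ N → C.c b ((sub L S').pr (L.rel e)) = 1) ∧
      ∃ τ : Option B → ℤ → (sub L S').G, ∀ v b,
        C.c b ((sub L S').gen v) = τ (κ v) b * (sub L S').gen v * (τ (κ v) (b + 1))⁻¹ := by
  classical
  have hne : Nonempty B := by
    rw [← Fintype.card_pos_iff, hcard]; omega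
  obtain ⟨r⟩ := hne
  let P₀ : Type := (sub L S').G
  let F : Type := Monoid.Coprod (FreeGroup T) P₀
  let x : V → P₀ := (sub L S').gen
  let π : P₀ →* (sub L (S' ∪ T')).G := addE L S' (S' ∪ T') Set.subset_union_left
  let oθ : (B → F) → Option B → F := fun θ o => o.elim 1 θ
  -- the twisted embedding
  have htw : ∀ θ : B → F, ∃ g : P₀ →* F, ∀ v,
      g (x v) = oθ θ (κ v) * inr (x v) * (oθ θ (κ v))⁻¹ := by
    intro θ
    refine ⟨PresentedGroup.toGroup
      (f := fun v => oθ θ (κ v) * inr (x v) * (oθ θ (κ v))⁻¹) ?_, fun v =>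
        PresentedGroup.toGroup.of _⟩
    rintro _ ⟨e, rfl⟩
    have h3 := Pool.Agent.N819.UD.gen_rel (sub L S') e
    have h4 : x (L.ini e) * x (L.lab e) = x (L.lab e) * x (L.ter e) := h3
    have h5 := h1 e e.2
    show FreeGroup.lift (fun v => oθ θ (κ v) * inr (x v) * (oθ θ (κ v))⁻¹)
      (FreeGroup.of (L.ini e) * FreeGroup.of (L.lab e) *
      (FreeGroup.of (L.ter e))⁻¹ * (FreeGroup.of (L.lab e))⁻¹) = 1
    simp only [map_mul, map_inv, FreeGroup.lift_apply_of]
    rw [h5.1, h5.2]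
    exact tw_aux _ _ _ _ (by rw [← map_mul, h4, map_mul])
  choose tw htw using htw
  obtain ⟨θ, Φ, hΦr, hE, hθ1, hΦ1⟩ := solC Pool.Agent.N195.UDDUAL.main Pool.Agent.N667.UDC.main
    Pool.Agent.N281.UDEXCH.main Pool.Agent.N933.UE.main Pool.Agent.N723.UE_FIX.main
    Pool.Agent.N806.UE_PER.main P Q Λ hcard hu r {e : T | (e : E) ∈ T'}
    (fun e : T => x (L.ini e)) (fun e : T => x (L.lab e)) (fun e : T => x (L.ter e)) π (by
      intro e he
      show addE L S' (S' ∪ T') Set.subset_union_left ((sub L S').gen (L.ini e)) *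
        addE L S' (S' ∪ T') Set.subset_union_left ((sub L S').gen (L.lab e)) =
        addE L S' (S' ∪ T') Set.subset_union_left ((sub L S').gen (L.lab e)) *
        addE L S' (S' ∪ T') Set.subset_union_left ((sub L S').gen (L.ter e))
      rw [addE_gen, addE_gen, addE_gen]
      exact Pool.Agent.N819.UD.gen_rel (sub L (S' ∪ T')) ⟨e, Or.inr he⟩)
    tw (fun θ e => by rw [htw, (h2 e).1]; rfl) (fun θ e => by rw [htw, (h2 e).2.2]; rfl)
    (by
      intro θ g hg w
      have h3 : g.comp (tw θ) = g.comp inr := by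
        apply PresentedGroup.ext
        intro v
        show g (tw θ (x v)) = g (inr (x v))
        rw [htw, map_mul, map_mul, map_inv]
        have h4 : g (oθ θ (κ v)) = 1 := by
          rcases κ v with _ | j
          · exact map_one g
          · exact hg j
        rw [h4]
        group
      exact DFunLike.congr_fun h3 w)
  let Ψ : F →* P₀ := lift 1 (MonoidHom.id P₀)
  have hΨr : ∀ w, Ψ (inr w) = w := fun w => lift_apply_inr _ _ _
  have hΦx : ∀ v, Φ (inr (x v)) = oθ θ (κ v) * inr (x v) * (oθ θ (κ v))⁻¹ := fun v => by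
    rw [hΦr, htw]
  let τ : Option B → ℤ → P₀ := fun o b => Ψ (Th Φ (oθ θ o) (N - b).toNat)
  -- the homomorphism to the semidirect product
  have hhom : ∃ f : P₀ →* (ℤ → P₀) ⋊[shiftZ P₀] Multiplicative ℤ, ∀ v,
      f (x v) = ⟨fun b => τ (κ v) b * x v * (τ (κ v) (b + 1))⁻¹, Multiplicative.ofAdd 1⟩ := by
    refine ⟨PresentedGroup.toGroup (f := fun v =>
      (⟨fun b => τ (κ v) b * x v * (τ (κ v) (b + 1))⁻¹, Multiplicative.ofAdd 1⟩ :
        (ℤ → P₀) ⋊[shiftZ P₀] Multiplicative ℤ)) ?_, fun v => PresentedGroup.toGroup.of _⟩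
    rintro _ ⟨e, rfl⟩
    have h3 := Pool.Agent.N819.UD.gen_rel (sub L S') e
    have h4 : x (L.ini e) * x (L.lab e) = x (L.lab e) * x (L.ter e) := h3
    have h5 := h1 e e.2
    show FreeGroup.lift (fun v =>
      (⟨fun b => τ (κ v) b * x v * (τ (κ v) (b + 1))⁻¹, Multiplicative.ofAdd 1⟩ :
        (ℤ → P₀) ⋊[shiftZ P₀] Multiplicative ℤ))
      (FreeGroup.of (L.ini e) * FreeGroup.of (L.lab e) *
      (FreeGroup.of (L.ter e))⁻¹ * (FreeGroup.of (L.lab e))⁻¹) = 1
    simp only [map_mul, map_inv, FreeGroup.lift_apply_of]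
    rw [mul_inv_eq_one, mul_inv_eq_iff_eq_mul, h5.1, h5.2]
    apply SemidirectProduct.ext
    · funext b
      show τ (κ (L.lab e)) b * x (L.ini e) * (τ (κ (L.lab e)) (b + 1))⁻¹ *
        (τ (κ (L.lab e)) (b + 1) * x (L.lab e) * (τ (κ (L.lab e)) (b + 1 + 1))⁻¹) =
        τ (κ (L.lab e)) b * x (L.lab e) * (τ (κ (L.lab e)) (b + 1))⁻¹ *
        (τ (κ (L.lab e)) (b + 1) * x (L.ter e) * (τ (κ (L.lab e)) (b + 1 + 1))⁻¹)
      have h6 : x (L.ini e) = x (L.lab e) * x (L.ter e) * (x (L.lab e))⁻¹ := by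
        rw [← h4, mul_inv_cancel_right]
      rw [h6]
      group
    · rfl
  obtain ⟨f, hf⟩ := hhom
  have hright : ∀ w, (f w).right = chi (sub L S') w := by
    intro w
    have h3 : (SemidirectProduct.rightHom).comp f = chi (sub L S') := by
      apply PresentedGroup.ext
      intro v
      show (f (x v)).right = chi (sub L S') ((sub L S').gen v)
      rw [hf, chi_gen]
    exact DFunLike.congr_fun h3 w
  have hmul : ∀ b w w', (f (w * w')).left b =
      (f w).left b * (f w').left (b + Multiplicative.toAdd (chi (sub L S') w)) := by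
    intro b w w'
    rw [map_mul, ← hright]
    rfl
  have hπτ : ∀ o b, π (τ o b) = 1 := by
    intro o b
    have h3 : ∀ j w, π (Ψ (Pool.Agent.N136.UE.it Φ j w)) = π (Ψ w) := by
      intro j
      induction j with
      | zero => intro w; rfl
      | succ j ih =>
        intro w
        rw [Pool.Agent.N136.UE.it_succ, ih]
        exact hΦ1 w
    have h4 : π (Ψ (oθ θ o)) = 1 := by
      rcases o with _ | j
      · show π (Ψ 1) = 1
        rw [map_one, map_one]
      · exact hθ1 j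
    have h5 : ∀ j, π (Ψ (Th Φ (oθ θ o) j)) = 1 := by
      intro j
      induction j with
      | zero =>
        show π (Ψ 1) = 1
        rw [map_one, map_one]
      | succ j ih =>
        show π (Ψ (Pool.Agent.N136.UE.it Φ j (oθ θ o) * Th Φ (oθ θ o) j)) = 1
        rw [map_mul, map_mul, h3, h4, ih, mul_one]
    exact h5 _
  have hgen : ∀ w b, π ((f w).left b) = π w := by
    intro w
    have hw : w ∈ Subgroup.closure (Set.range x) := by
      have h3 : Subgroup.closure (Set.range x) = ⊤ := PresentedGroup.closure_range_of _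
      rw [h3]
      trivial
    induction hw using Subgroup.closure_induction with
    | mem y hy =>
      obtain ⟨v, rfl⟩ := hy
      intro b
      rw [hf]
      show π (τ (κ v) b * x v * (τ (κ v) (b + 1))⁻¹) = π (x v)
      rw [map_mul, map_mul, map_inv, hπτ, hπτ]
      group
    | one =>
      intro b
      rw [map_one]
      rfl
    | mul y z _ _ ihy ihz =>
      intro b
      rw [hmul, map_mul, ihy, ihz, map_mul]
    | inv y _ ihy =>
      intro b
      have h3 := hmul b y⁻¹ y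
      rw [inv_mul_cancel, map_one] at h3
      have h4 : (1 : P₀) = (f y⁻¹).left b *
        (f y).left (b + Multiplicative.toAdd (chi (sub L S') y⁻¹)) := h3
      have h5 := congrArg π h4
      rw [map_one, map_mul, ihy] at h5
      rw [map_inv π y]
      exact eq_inv_of_mul_eq_one_left h5.symm
  let C : Cocy (chi (sub L S')) (addE L S' (S' ∪ T') Set.subset_union_left) :=
    { c := fun b w => (f w).left b
      mul := hmul
      pr := fun b w => hgen w b }
  have hCx : ∀ v b, C.c b (x v) = τ (κ v) b * x v * (τ (κ v) (b + 1))⁻¹ := by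
    intro v b
    show (f (x v)).left b = _
    rw [hf]
  refine ⟨C, ?_, τ, hCx⟩
  intro e he b hb
  have heT : e ∈ T := hT' he
  obtain ⟨j, hj⟩ : ∃ j : ℕ, N - b = (j : ℤ) + 1 + 1 := ⟨(N - b - 2).toNat, by omega⟩
  have hj0 : (N - b).toNat = j + 1 + 1 := by omega
  have hj1 : (N - (b + 1)).toNat = j + 1 := by omega
  have hj2 : (N - (b + 1 + 1)).toNat = j := by omega
  have hv0 : ∀ v, C.c b (x v) = Ψ (Pool.Agent.N136.UE.it Φ (j + 1) (oθ θ (κ v) * inr (x v))) := by
    intro v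
    rw [hCx, ← Th_step Φ _ _ (hΦx v)]
    show Ψ (Th Φ (oθ θ (κ v)) (N - b).toNat) * x v *
      (Ψ (Th Φ (oθ θ (κ v)) (N - (b + 1)).toNat))⁻¹ = _
    rw [hj0, hj1, map_mul, map_mul, map_inv, hΨr]
  have hv1 : ∀ v, C.c (b + 1) (x v) =
      Ψ (Pool.Agent.N136.UE.it Φ j (oθ θ (κ v) * inr (x v))) := by
    intro v
    rw [hCx, ← Th_step Φ _ _ (hΦx v)]
    show Ψ (Th Φ (oθ θ (κ v)) (N - (b + 1)).toNat) * x v *
      (Ψ (Th Φ (oθ θ (κ v)) (N - (b + 1 + 1)).toNat))⁻¹ = _
    rw [hj1, hj2, map_mul, map_mul, map_inv, hΨr]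
  have hchi1 : ∀ v, Multiplicative.toAdd (chi (sub L S') (x v)) = 1 := by
    intro v
    show Multiplicative.toAdd (chi (sub L S') ((sub L S').gen v)) = 1
    rw [chi_gen]
    rfl
  -- the equation
  have heq : Φ (oθ θ (κ (L.ini e)) * inr (x (L.ini e))) * (oθ θ (κ (L.lab e)) * inr (x (L.lab e))) =
      Φ (oθ θ (κ (L.lab e)) * inr (x (L.lab e))) * (oθ θ (κ (L.ter e)) * inr (x (L.ter e))) := by
    have h3 := hE ⟨e, heT⟩ he
    have h4 := h2 ⟨e, heT⟩
    rw [h4.1, h4.2.1, h4.2.2]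
    rw [map_mul, map_inv, inv_mul_eq_iff_eq_mul, ← mul_assoc, eq_mul_inv_iff_mul_eq] at h3
    exact h3
  have h3 : C.c b (x (L.ini e) * x (L.lab e)) = C.c b (x (L.lab e) * x (L.ter e)) := by
    rw [C.mul, C.mul, hchi1, hchi1, hv0, hv1, hv0, hv1, Pool.Agent.N136.UE.it_succ,
      Pool.Agent.N136.UE.it_succ, ← map_mul, ← map_mul, heq, map_mul, map_mul]
  have h4 : (sub L S').pr (L.rel e) * (x (L.lab e) * x (L.ter e)) =
      x (L.ini e) * x (L.lab e) := by
    show (sub L S').pr (FreeGroup.of (L.ini e) * FreeGroup.of (L.lab e) *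
      (FreeGroup.of (L.ter e))⁻¹ * (FreeGroup.of (L.lab e))⁻¹) * _ = _
    rw [map_mul, map_mul, map_mul, map_inv, map_inv]
    show x (L.ini e) * x (L.lab e) * (x (L.ter e))⁻¹ * (x (L.lab e))⁻¹ *
      (x (L.lab e) * x (L.ter e)) = x (L.ini e) * x (L.lab e)
    group
  have h5 : Multiplicative.toAdd (chi (sub L S') ((sub L S').pr (L.rel e))) = 0 := by
    have h6 := addE_chi L S' (S' ∪ T') Set.subset_union_left ((sub L S').pr (L.rel e))
    rw [addE_rel L S' (S' ∪ T') Set.subset_union_left e (Or.inr he), map_one] at h6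
    rw [← h6]
    rfl
  have h6 := C.mul b ((sub L S').pr (L.rel e)) (x (L.lab e) * x (L.ter e))
  rw [h4, h5, add_zero, h3] at h6
  exact (mul_eq_right.1 h6.symm)

end Pool.Agent.U499.TW
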