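import Pool.Agent.U499.TW.StageC

/-!
# Towers of decompositions of labelled oriented graphs: local indicability, the blocks embed
-/

set_option autoImplicit false

namespace Pool.Agent.U499.TW

open Pool.Agent.TH625.LOG Pool.Agent.N819.LT Pool.Agent.N819.UD Finset

variable {V E : Type}

/-- one stage, initial version -/
theorem stage_ini (L : LOG V E) (S' T T' : Set E) (hT' : T' ⊆ T)
    {B : Type} [Fintype B] [DecidableEq B] [Fintype T] [DecidableEq T] (κ : V → Option B)
    (P Q Λ : T → B)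
    (h1 : ∀ e ∈ S', κ (L.ini e) = κ (L.lab e) ∧ κ (L.ter e) = κ (L.lab e))
    (h2 : ∀ e : T, κ (L.ini e) = some (P e) ∧ κ (L.ter e) = some (Q e) ∧ κ (L.lab e) = some (Λ e))
    (hcard : Fintype.card B = Fintype.card T + 1)
    (hu : ∃! R : Set T, Mix P Q Λ R ∧ Spans P Λ R) :
    (LocInd (sub L S').G → LocInd (sub L (S' ∪ T')).G) ∧
    ∀ W : Set V, (∀ v ∈ W, ∀ v' ∈ W, κ v = κ v') →
      ∀ w ∈ Subgroup.closure (FreeGroup.of '' W), (sub L (S' ∪ T')).pr w = 1 →
        (sub L S').pr w = 1 := by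
  classical
  have hex : ∀ F : Finset ((sub L S').G × ℤ), ∃ N : ℤ, ∀ d ∈ F, d.2 + 2 ≤ N := by
    intro F
    obtain ⟨M, hM⟩ := (F.image fun d => d.2 + 2).bddAbove
    exact ⟨M, fun d hd => hM (Finset.mem_coe.2 (Finset.mem_image_of_mem _ hd))⟩
  constructor
  · intro hP
    refine locInd_of_cocy hP (chi (sub L (S' ∪ T'))) (addE_surj L S' (S' ∪ T')
      Set.subset_union_left) (addE_chi L S' (S' ∪ T') Set.subset_union_left)
      {r | ∃ e ∈ S' ∪ T', e ∉ S' ∧ r = (sub L S').pr (L.rel e)}
      (addE_ker L S' (S' ∪ T') Set.subset_union_left) ?_ ?_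
    · rintro r ⟨e, he, -, rfl⟩
      exact addE_rel L S' (S' ∪ T') Set.subset_union_left e he
    · intro F
      obtain ⟨N, hN⟩ := hex F
      obtain ⟨C, hC, -⟩ := stage_coc L S' T T' hT' κ P Q Λ h1 h2 hcard hu N
      refine ⟨C, ?_⟩
      rintro ⟨r, b⟩ hd ⟨e, he, heS, hr⟩
      have h3 := hN _ hd
      simp only at hr h3 ⊢
      rw [hr]
      exact hC e (he.resolve_left heS) b h3
  · intro W hW w hw hw1
    refine inj_of_cocy (π := addE L S' (S' ∪ T') Set.subset_union_left) (sub L S').gen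
      (chi_gen _) (chi (sub L (S' ∪ T')))
      (addE_chi L S' (S' ∪ T') Set.subset_union_left)
      {r | ∃ e ∈ S' ∪ T', e ∉ S' ∧ r = (sub L S').pr (L.rel e)}
      (addE_ker L S' (S' ∪ T') Set.subset_union_left) ?_ W ?_ ((sub L S').pr w) ?_ ?_
    · rintro r ⟨e, he, -, rfl⟩
      exact addE_rel L S' (S' ∪ T') Set.subset_union_left e he
    · intro F
      obtain ⟨N, hN⟩ := hex F
      obtain ⟨C, hC, τ, hτ⟩ := stage_coc L S' T T' hT' κ P Q Λ h1 h2 hcard hu N
      refine ⟨C, ?_, ?_⟩
      · rintro ⟨r, b⟩ hd ⟨e, he, heS, hr⟩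
        have h3 := hN _ hd
        simp only at hr h3 ⊢
        rw [hr]
        exact hC e (he.resolve_left heS) b h3
      · by_cases hWn : W.Nonempty
        · obtain ⟨v₀, hv₀⟩ := hWn
          refine ⟨τ (κ v₀), fun v hv b => ?_⟩
          rw [hτ, hW v hv v₀ hv₀]
        · exact ⟨fun _ => 1, fun v hv => absurd ⟨v, hv⟩ hWn⟩
    · have h3 : ((sub L S').gen '' W : Set (sub L S').G) =
          (sub L S').pr '' (FreeGroup.of '' W) := by
        rw [Set.image_image]
        rfl
      rw [h3, ← MonoidHom.map_closure]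
      exact Subgroup.mem_map_of_mem _ hw
    · rw [addE_pr]
      exact hw1

/-- the inversion of the generators -/
def revW (V : Type) : FreeGroup V →* FreeGroup V := FreeGroup.lift fun v => (FreeGroup.of v)⁻¹

theorem revW_revW (w : FreeGroup V) : revW V (revW V w) = w := by
  have h : (revW V).comp (revW V) = MonoidHom.id _ := by
    apply FreeGroup.ext_hom
    intro v
    show revW V (revW V (FreeGroup.of v)) = FreeGroup.of v
    have h1 : revW V (FreeGroup.of v) = (FreeGroup.of v)⁻¹ := FreeGroup.lift_apply_of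
    rw [h1, map_inv, h1, inv_inv]
  exact DFunLike.congr_fun h w

theorem revW_mem (W : Set V) (w : FreeGroup V) (hw : w ∈ Subgroup.closure (FreeGroup.of '' W)) :
    revW V w ∈ Subgroup.closure (FreeGroup.of '' W) := by
  have h : Subgroup.closure (FreeGroup.of '' W) ≤
      (Subgroup.closure (FreeGroup.of '' W)).comap (revW V) := by
    rw [Subgroup.closure_le]
    rintro _ ⟨v, hv, rfl⟩
    show revW V (FreeGroup.of v) ∈ Subgroup.closure (FreeGroup.of '' W)
    have h1 : revW V (FreeGroup.of v) = (FreeGroup.of v)⁻¹ := FreeGroup.lift_apply_of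
    rw [h1]
    exact Subgroup.inv_mem _ (Subgroup.subset_closure ⟨v, hv, rfl⟩)
  exact h hw

theorem rev_pr (M : LOG V E) (w : FreeGroup V) (h : M.pr w = 1) :
    (revL M).pr (revW V w) = 1 := by
  let f : M.G →* (revL M).G := PresentedGroup.toGroup (f := fun v => ((revL M).gen v)⁻¹) (by
    rintro _ ⟨e, rfl⟩
    have h1 := Pool.Agent.N819.UD.gen_rel (revL M) e
    have h2 : (revL M).gen (M.ter e) * (revL M).gen (M.lab e) =
      (revL M).gen (M.lab e) * (revL M).gen (M.ini e) := h1
    simp only [LOG.rel, map_mul, map_inv, FreeGroup.lift_apply_of, inv_inv]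
    rw [← mul_inv_rev, ← h2]
    group)
  have h3 : f.comp M.pr = (revL M).pr.comp (revW V) := by
    apply FreeGroup.ext_hom
    intro v
    show f (M.gen v) = (revL M).pr (revW V (FreeGroup.of v))
    have h1 : revW V (FreeGroup.of v) = (FreeGroup.of v)⁻¹ := FreeGroup.lift_apply_of
    have h4 : f (M.gen v) = ((revL M).gen v)⁻¹ := PresentedGroup.toGroup.of _
    rw [h4, h1, map_inv]
    rfl
  have h5 := DFunLike.congr_fun h3 w
  have h6 : f (M.pr w) = (revL M).pr (revW V w) := h5
  rw [← h6, h, map_one]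

/-- one stage -/
theorem stage_any [Finite E] (L : LOG V E) (S T : Set E) (hst : Stage L S T) (S' T' : Set E)
    (hS' : S' ⊆ S) (hT' : T' ⊆ T) :
    (LocInd (sub L S').G → LocInd (sub L (S' ∪ T')).G) ∧
    ∀ W : Set V, (∀ (X : Type) (k : V → X), (∀ e ∈ S, k (L.ini e) = k (L.lab e) ∧
        k (L.ter e) = k (L.lab e)) → ∀ v ∈ W, ∀ v' ∈ W, k v = k v') →
      ∀ w ∈ Subgroup.closure (FreeGroup.of '' W), (sub L (S' ∪ T')).pr w = 1 →
        (sub L S').pr w = 1 := by
  classical
  obtain ⟨B, κ, P, Q, Λ, hB, h1, h2, hcard, hu⟩ := hst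
  have := Fintype.ofFinite B
  have := Fintype.ofFinite E
  have hcard' : Fintype.card B = Fintype.card T + 1 := by
    rw [← Nat.card_eq_fintype_card, ← Nat.card_eq_fintype_card]
    exact hcard
  rcases hu with hu | hu
  · obtain ⟨h3, h4⟩ := stage_ini L S' T T' hT' κ P Q Λ (fun e he => h1 e (hS' he)) h2 hcard' hu
    exact ⟨h3, fun W hW => h4 W (hW _ κ h1)⟩
  · obtain ⟨h3, h4⟩ := stage_ini (revL L) S' T T' hT' κ Q P Λ
      (fun e he => ⟨(h1 e (hS' he)).2, (h1 e (hS' he)).1⟩)
      (fun e => ⟨(h2 e).2.1, (h2 e).1, (h2 e).2.2⟩) hcard' hu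
    refine ⟨fun h => ?_, fun W hW w hw hw1 => ?_⟩
    · exact locInd_rev (sub L (S' ∪ T')) (h3 (locInd_rev (sub (revL L) S') h))
    · have h5 := h4 W (hW _ κ h1) (revW V w) (revW_mem W w hw) (rev_pr (sub L (S' ∪ T')) w hw1)
      have h6 : (sub L S').pr (revW V (revW V w)) = 1 := rev_pr (sub (revL L) S') (revW V w) h5
      rwa [revW_revW] at h6

theorem tower_sub (L : LOG V E) {S₀ S : Set E} (hT : Tower L S₀ S) : S₀ ⊆ S := by
  induction hT with
  | base => exact subset_rfl
  | stage S T _ _ ih => exact ih.trans Set.subset_union_left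

/-- **Local indicability is inherited.** -/
theorem tower_li [Finite E] (L : LOG V E) {S₀ S : Set E} (hT : Tower L S₀ S)
    (h0 : ∀ R ⊆ S₀, LocInd (sub L R).G) : ∀ R ⊆ S, LocInd (sub L R).G := by
  induction hT with
  | base => exact h0
  | stage S T _ hst ih =>
    intro R hR
    have h1 := (stage_any L S T hst (R ∩ S) (R ∩ T) Set.inter_subset_right
      Set.inter_subset_right).1 (ih (R ∩ S) Set.inter_subset_right)
    have h2 : R ∩ S ∪ R ∩ T = R := by
      rw [← Set.inter_union_distrib_left]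
      exact Set.inter_eq_left.2 hR
    rwa [h2] at h1

/-- The set `W` of vertices is contained in a block of the graph with the edges `S₀`: every function
which is constant on the ends and the label of each edge of `S₀` is constant on `W`. -/
def InBlock (L : LOG V E) (S₀ : Set E) (W : Set V) : Prop :=
  ∀ (X : Type) (k : V → X), (∀ e ∈ S₀, k (L.ini e) = k (L.lab e) ∧ k (L.ter e) = k (L.lab e)) →
    ∀ v ∈ W, ∀ v' ∈ W, k v = k v'

/-- **The blocks embed.** -/
theorem tower_emb [Finite E] (L : LOG V E) {S₀ S : Set E} (hT : Tower L S₀ S) (W : Set V)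
    (hW : InBlock L S₀ W) : ∀ R ⊆ S, ∀ w ∈ Subgroup.closure (FreeGroup.of '' W),
    (sub L R).pr w = 1 → (sub L (R ∩ S₀)).pr w = 1 := by
  induction hT with
  | base =>
    intro R hR w _ h
    have h2 : R ∩ S₀ = R := Set.inter_eq_left.2 hR
    rwa [h2]
  | stage S T hS hst ih =>
    intro R hR w hw h
    have h2 : R ∩ S ∪ R ∩ T = R := by
      rw [← Set.inter_union_distrib_left]
      exact Set.inter_eq_left.2 hR
    have h1 := (stage_any L S T hst (R ∩ S) (R ∩ T) Set.inter_subset_right
      Set.inter_subset_right).2 W (fun X k hk => hW X k fun e he => hk e (tower_sub L hS he)) w hw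
      (by rwa [h2])
    have h3 := ih (R ∩ S) Set.inter_subset_right w hw h1
    have h4 : R ∩ S ∩ S₀ = R ∩ S₀ := by
      rw [Set.inter_assoc, Set.inter_eq_right.2 (tower_sub L hS)]
    rwa [h4] at h3

/-- the group without relators -/
theorem locInd_empty (L : LOG V E) (R : Set E) (hR : R ⊆ ∅) : LocInd (sub L R).G := by
  have hfree : LocInd (FreeGroup V) := by
    intro H _ hne
    obtain ⟨ψ, hψ⟩ := free_li H hne
    exact surj_of_ne ψ hψ
  have hrels : ∀ r ∈ Set.range (sub L R).rel, FreeGroup.lift (FreeGroup.of (α := V)) r = 1 := by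
    rintro _ ⟨e, rfl⟩
    exact absurd (hR e.2) (Set.notMem_empty _)
  let f : (sub L R).G →* FreeGroup V := PresentedGroup.toGroup hrels
  intro H hH hne
  refine hfree.of_hom hH f ?_
  intro hle
  apply hne
  rw [Subgroup.eq_bot_iff_forall]
  intro x hx
  obtain ⟨w, rfl⟩ := PresentedGroup.mk_surjective _ x
  have h1 : f ((sub L R).pr w) = w := by
    have h2 : f.comp (sub L R).pr = MonoidHom.id _ := by
      apply FreeGroup.ext_hom
      intro v
      exact PresentedGroup.toGroup.of hrels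
    exact DFunLike.congr_fun h2 w
  have h3 : f ((sub L R).pr w) = 1 := hle hx
  rw [h1] at h3
  rw [h3, map_one]

end Pool.Agent.U499.TW
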